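import Pool.Agent.H37.SFQ.Variance

/-!
The inequality `p_{n+1} < p_n^{1+1/n}` for small `n`, for a residue class which is regular in all
windows.
-/

set_option autoImplicit false

open Finset

namespace Pool.Agent.H37.SFQ

/-- primes congruent to `r` modulo `q` -/
def PC (q r m : ℕ) : Prop := m.Prime ∧ m % q = r

instance (q r : ℕ) : DecidablePred (PC q r) := fun m =>
  inferInstanceAs (Decidable (m.Prime ∧ m % q = r))

lemma PC_infinite {q r : ℕ} (hr : r < q) (hc : r.Coprime q) : (Set.ofPred (PC q r)).Infinite := by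
  have : NeZero q := ⟨by omega⟩
  have h1 := Nat.infinite_setOfPred_prime_and_eq_mod ((ZMod.isUnit_iff_coprime r q).2 hc)
  refine h1.mono ?_
  rintro p ⟨hp, hpr⟩
  refine ⟨hp, ?_⟩
  rw [ZMod.natCast_eq_natCast_iff] at hpr
  have h2 : p % q = r % q := hpr
  rw [h2, Nat.mod_eq_of_lt hr]

/-- number of primes of the class in a window -/
noncomputable def cW (M N q r : ℕ) : ℕ := ((wp M N).filter (fun p => p % q = r)).card

lemma count_window (M N q r : ℕ) :
    Nat.count (PC q r) (M + N + 1) = Nat.count (PC q r) (M + 1) + cW M N q r := by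
  rw [Nat.count_eq_card_filter_range, Nat.count_eq_card_filter_range, cW,
    ← Finset.card_union_of_disjoint]
  · congr 1
    ext p
    rw [Finset.mem_union, Finset.mem_filter, Finset.mem_filter, Finset.mem_filter, mem_wp,
      Finset.mem_range, Finset.mem_range]
    unfold PC
    constructor
    · rintro ⟨h1, h2, h3⟩
      rcases Nat.lt_or_ge p (M + 1) with h | h
      · exact Or.inl ⟨h, h2, h3⟩
      · exact Or.inr ⟨⟨⟨by omega, by omega⟩, h2⟩, h3⟩
    · rintro (⟨h1, h2, h3⟩ | ⟨⟨⟨h1, h1'⟩, h2⟩, h3⟩)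
      · exact ⟨by omega, h2, h3⟩
      · exact ⟨by omega, h2, h3⟩
  · rw [Finset.disjoint_left]
    intro p h1 h2
    rw [Finset.mem_filter, Finset.mem_range] at h1
    rw [Finset.mem_filter, mem_wp] at h2
    omega

lemma fW_le (M N q r : ℕ) : fW M N q r ≤ cW M N q r * Real.log ((M : ℝ) + N) := by
  unfold fW cW
  rw [← nsmul_eq_mul, ← Finset.sum_const]
  refine Finset.sum_le_sum fun p hp => ?_
  rw [Finset.mem_filter, mem_wp] at hp
  refine Real.log_le_log (by exact_mod_cast hp.1.2.pos) ?_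
  exact_mod_cast hp.1.1.2

lemma le_fW {M : ℕ} (hM : 1 ≤ M) (N q r : ℕ) : cW M N q r * Real.log M ≤ fW M N q r := by
  unfold fW cW
  rw [← nsmul_eq_mul, ← Finset.sum_const]
  refine Finset.sum_le_sum fun p hp => ?_
  rw [Finset.mem_filter, mem_wp] at hp
  refine Real.log_le_log (by exact_mod_cast hM) ?_
  exact_mod_cast hp.1.1.1.le

/-- The parameters and the regularity assumptions on the pair `(r, q)`, except for the
short windows. -/
structure Good (Q q r H I : ℕ) (L P : ℝ) : Prop where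
  hL : L = Real.log Q
  hL1 : 1 ≤ L
  hP : 4 ≤ P
  hH1 : H * P ^ 4 ≤ Q * L ^ 2
  hH2 : Q * L ^ 2 ≤ 2 * (H * P ^ 4)
  hP5 : 2 * Real.log (2 * L ^ 2 * P) < P ^ 3
  hP6 : Real.log P ≤ L / 2
  hHQ : Q ≤ H
  hlogI : Real.log ((2 : ℝ) ^ (I + 1) * H) ≤ 2 * L
  hrq : r < q
  hqQ : q ≤ Q
  hc : r.Coprime q
  hrP : (Q : ℝ) ≤ P * r
  hφ : (q : ℝ) ≤ P * q.totient
  hdy : ∀ i, i ≤ I → ¬ Irr (2 ^ i * H) (2 ^ i * H) q r
  hcnt : (Nat.count (PC q r) (H + 1) : ℝ) ≤ L / P ^ 3

namespace Good

variable {Q q r H I : ℕ} {L P : ℝ}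

lemma Q_pos (g : Good Q q r H I L P) : (0 : ℝ) < Q := by
  have h := g.hL1
  rw [g.hL] at h
  by_contra hc
  have h2 : Q = 0 := by
    have : (Q : ℝ) = 0 := le_antisymm (not_lt.1 hc) (Nat.cast_nonneg _)
    exact_mod_cast this
  rw [h2] at h
  simp at h
  linarith

lemma L_pos (g : Good Q q r H I L P) : 0 < L := by linarith [g.hL1]

lemma P_pos (g : Good Q q r H I L P) : 0 < P := by linarith [g.hP]

lemma H_pos (g : Good Q q r H I L P) : (0 : ℝ) < H := by
  have h1 : (Q : ℝ) ≤ H := by exact_mod_cast g.hHQ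
  linarith [g.Q_pos]

lemma Hn_pos (g : Good Q q r H I L P) : 0 < H := by exact_mod_cast g.H_pos

lemma phi_pos (g : Good Q q r H I L P) : (0 : ℝ) < q.totient := by
  have h := g.hrq
  exact_mod_cast Nat.totient_pos.2 (show 0 < q by omega)

lemma phi_le (g : Good Q q r H I L P) : (q.totient : ℝ) ≤ Q := by
  exact_mod_cast (Nat.totient_le q).trans g.hqQ

lemma phi_ge (g : Good Q q r H I L P) : (Q : ℝ) ≤ P ^ 2 * q.totient := by
  have h1 : (r : ℝ) ≤ q := by exact_mod_cast g.hrq.le
  have h2 : P * r ≤ P * q := mul_le_mul_of_nonneg_left h1 g.P_pos.le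
  have h3 : P * q ≤ P * (P * q.totient) := mul_le_mul_of_nonneg_left g.hφ g.P_pos.le
  calc (Q : ℝ) ≤ P * r := g.hrP
    _ ≤ _ := h2.trans h3
    _ = _ := by ring

lemma dy (g : Good Q q r H I L P) {i : ℕ} (hi : i ≤ I) :
    ((2 ^ i * H : ℕ) : ℝ) / 4 ≤ q.totient * fW (2 ^ i * H) (2 ^ i * H) q r ∧
      q.totient * fW (2 ^ i * H) (2 ^ i * H) q r ≤ 2 * ((2 ^ i * H : ℕ) : ℝ) := by
  have := g.hdy i hi
  unfold Irr at this
  exact not_not.1 this

lemma count_succ (q r H i : ℕ) : Nat.count (PC q r) (2 ^ (i + 1) * H + 1) =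
    Nat.count (PC q r) (2 ^ i * H + 1) + cW (2 ^ i * H) (2 ^ i * H) q r := by
  rw [← count_window]
  congr 1
  ring

/-- upper bound for the counting function at the dyadic points -/
lemma count_up (g : Good Q q r H I L P) (i : ℕ) (hi : i ≤ I + 1) :
    (Nat.count (PC q r) (2 ^ i * H + 1) : ℝ) ≤
      L / P ^ 3 + ((2 : ℝ) ^ i - 1) * (2 * H * P ^ 2 / (Q * L)) := by
  have hQ0 := g.Q_pos
  have hL0 := g.L_pos
  have hP0 := g.P_pos
  have hH0 := g.H_pos
  have hφ0 := g.phi_pos
  induction i with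
  | zero => simpa using g.hcnt
  | succ i ih =>
    have h1 := ih (by omega)
    rw [count_succ]
    have h3 := (g.dy (show i ≤ I by omega)).2
    have hpos : 1 ≤ 2 ^ i * H := Nat.mul_pos (by positivity) g.Hn_pos
    have h4 := le_fW (M := 2 ^ i * H) hpos (2 ^ i * H) q r
    have h5 : L ≤ Real.log ((2 ^ i * H : ℕ) : ℝ) := by
      conv_lhs => rw [g.hL]
      refine Real.log_le_log hQ0 ?_
      have : Q ≤ 2 ^ i * H := g.hHQ.trans (Nat.le_mul_of_pos_left H (by positivity))
      exact_mod_cast this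
    set X : ℝ := (cW (2 ^ i * H) (2 ^ i * H) q r : ℝ) with hX
    have hX0 : 0 ≤ X := Nat.cast_nonneg _
    have h6 : X * L ≤ fW (2 ^ i * H) (2 ^ i * H) q r :=
      (mul_le_mul_of_nonneg_left h5 hX0).trans h4
    have h7 : X ≤ (2 : ℝ) ^ i * (2 * H * P ^ 2 / (Q * L)) := by
      rw [← mul_div_assoc, le_div_iff₀ (by positivity)]
      have h8 : (q.totient : ℝ) * (X * L) ≤ 2 * ((2 ^ i * H : ℕ) : ℝ) :=
        (mul_le_mul_of_nonneg_left h6 hφ0.le).trans h3
      push_cast at h8
      calc X * (Q * L) ≤ X * ((P ^ 2 * q.totient) * L) := by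
            refine mul_le_mul_of_nonneg_left ?_ hX0
            exact mul_le_mul_of_nonneg_right g.phi_ge hL0.le
        _ = P ^ 2 * (q.totient * (X * L)) := by ring
        _ ≤ P ^ 2 * (2 * (2 ^ i * H)) := mul_le_mul_of_nonneg_left h8 (by positivity)
        _ = 2 ^ i * (2 * H * P ^ 2) := by ring
    push_cast
    have h8 : ((2 : ℝ) ^ (i + 1) - 1) * (2 * H * P ^ 2 / (Q * L)) =
        ((2 : ℝ) ^ i - 1) * (2 * H * P ^ 2 / (Q * L)) + 2 ^ i * (2 * H * P ^ 2 / (Q * L)) := by
      ring
    rw [h8]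
    linarith

/-- lower bound for the counting function at the dyadic points -/
lemma count_low (g : Good Q q r H I L P) (i : ℕ) (hi : i ≤ I + 1) :
    ((2 : ℝ) ^ i - 1) * (H / (8 * Q * L)) ≤ (Nat.count (PC q r) (2 ^ i * H + 1) : ℝ) := by
  have hQ0 := g.Q_pos
  have hL0 := g.L_pos
  have hP0 := g.P_pos
  have hH0 := g.H_pos
  have hφ0 := g.phi_pos
  induction i with
  | zero => simp
  | succ i ih =>
    have h1 := ih (by omega)
    rw [count_succ]
    have h3 := (g.dy (show i ≤ I by omega)).1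
    have h4 := fW_le (2 ^ i * H) (2 ^ i * H) q r
    have h5 : Real.log (((2 ^ i * H : ℕ) : ℝ) + ((2 ^ i * H : ℕ) : ℝ)) ≤ 2 * L := by
      refine le_trans (Real.log_le_log ?_ ?_) g.hlogI
      · push_cast
        positivity
      · push_cast
        have h6 : (2 : ℝ) ^ (i + 1) ≤ 2 ^ (I + 1) := pow_le_pow_right₀ (by norm_num) (by omega)
        have h7 : (2 : ℝ) ^ i * H + 2 ^ i * H = 2 ^ (i + 1) * H := by ring
        rw [h7]
        exact mul_le_mul_of_nonneg_right h6 hH0.le
    set X : ℝ := (cW (2 ^ i * H) (2 ^ i * H) q r : ℝ) with hX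
    have hX0 : 0 ≤ X := Nat.cast_nonneg _
    have h6 : fW (2 ^ i * H) (2 ^ i * H) q r ≤ X * (2 * L) :=
      h4.trans (mul_le_mul_of_nonneg_left h5 hX0)
    have h7 : (2 : ℝ) ^ i * (H / (8 * Q * L)) ≤ X := by
      rw [← mul_div_assoc, div_le_iff₀ (by positivity)]
      have h8 : ((2 ^ i * H : ℕ) : ℝ) / 4 ≤ Q * (X * (2 * L)) := by
        refine h3.trans ?_
        refine (mul_le_mul_of_nonneg_left h6 hφ0.le).trans ?_
        exact mul_le_mul_of_nonneg_right g.phi_le (by positivity)
      push_cast at h8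
      linarith
    push_cast
    have h8 : ((2 : ℝ) ^ (i + 1) - 1) * (H / (8 * Q * L)) =
        ((2 : ℝ) ^ i - 1) * (H / (8 * Q * L)) + 2 ^ i * (H / (8 * Q * L)) := by ring
    rw [h8]
    linarith

lemma exists_dyadic {H a : ℕ} (I : ℕ) (h1 : H < a) (h2 : a ≤ 2 ^ (I + 1) * H) :
    ∃ i, i ≤ I ∧ 2 ^ i * H < a ∧ a ≤ 2 ^ (i + 1) * H := by
  induction I with
  | zero => exact ⟨0, le_rfl, by simpa using h1, h2⟩
  | succ I ih =>
    rcases Nat.lt_or_ge (2 ^ (I + 1) * H) a with h | h
    · exact ⟨I + 1, le_rfl, h, h2⟩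
    · obtain ⟨i, hi, h3, h4⟩ := ih h
      exact ⟨i, by omega, h3, h4⟩

/-- Short gaps imply the inequality. -/
theorem ineq_of_gap (g : Good Q q r H I L P) {n a b j0 : ℕ} (ha : PC q r a)
    (hab : a < b) (hca : Nat.count (PC q r) (a + 1) = n) (hj0a : j0 * H < a)
    (haj0 : a ≤ (j0 + 1) * H) (hbj0 : b ≤ (j0 + 2) * H) (haI : a ≤ 2 ^ (I + 1) * H) :
    n * Real.log b < (n + 1) * Real.log a := by
  have hQ0 := g.Q_pos
  have hL0 := g.L_pos
  have hP0 := g.P_pos
  have hP := g.hP
  have hH0 := g.H_pos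
  have hφ0 := g.phi_pos
  have hHQ' : (Q : ℝ) ≤ H := by exact_mod_cast g.hHQ
  have ha1 : 1 ≤ a := ha.1.one_le
  have ha0 : (0 : ℝ) < a := by exact_mod_cast ha1
  have hb0 : (0 : ℝ) < b := by exact_mod_cast (by omega : 0 < b)
  have hn0 : (0 : ℝ) ≤ n := Nat.cast_nonneg _
  have hlogab : Real.log b - Real.log a = Real.log (b / a) := (Real.log_div hb0.ne' ha0.ne').symm
  have goal : n * Real.log ((b : ℝ) / a) < Real.log a → n * Real.log b < (n + 1) * Real.log a := by
    intro h
    rw [← hlogab] at h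
    linarith
  apply goal
  rcases Nat.eq_zero_or_pos j0 with hz | hz
  · -- `a ≤ H`
    rw [hz] at haj0 hbj0
    have h1 : (n : ℝ) ≤ L / P ^ 3 := by
      refine le_trans ?_ g.hcnt
      rw [← hca]
      have : a + 1 ≤ H + 1 := by omega
      exact_mod_cast Nat.count_monotone _ this
    have hra : (r : ℝ) ≤ a := by
      have : r ≤ a := by
        rw [← ha.2]
        exact Nat.mod_le _ _
      exact_mod_cast this
    have h2 : (b : ℝ) / a ≤ 2 * L ^ 2 * P := by
      rw [div_le_iff₀ ha0]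
      have h3 : (b : ℝ) ≤ 2 * H := by exact_mod_cast (by omega : b ≤ 2 * H)
      have h4 : (H : ℝ) ≤ Q * L ^ 2 := by
        refine le_trans ?_ g.hH1
        have : 1 ≤ P ^ 4 := one_le_pow₀ (by linarith)
        nlinarith
      calc (b : ℝ) ≤ 2 * (Q * L ^ 2) := by linarith
        _ ≤ 2 * ((P * r) * L ^ 2) := by
            have := mul_le_mul_of_nonneg_right g.hrP (sq_nonneg L)
            linarith
        _ ≤ 2 * ((P * a) * L ^ 2) := by
            have : P * r ≤ P * a := mul_le_mul_of_nonneg_left hra hP0.le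
            have := mul_le_mul_of_nonneg_right this (sq_nonneg L)
            linarith
        _ = 2 * L ^ 2 * P * a := by ring
    have h3 : Real.log ((b : ℝ) / a) ≤ Real.log (2 * L ^ 2 * P) :=
      Real.log_le_log (by positivity) h2
    have h4 : 0 ≤ Real.log ((b : ℝ) / a) := by
      apply Real.log_nonneg
      rw [le_div_iff₀ ha0, one_mul]
      exact_mod_cast hab.le
    have h5 : L - Real.log P ≤ Real.log a := by
      have h6 : Real.log Q ≤ Real.log (P * a) := by
        refine Real.log_le_log hQ0 (g.hrP.trans ?_)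
        exact mul_le_mul_of_nonneg_left hra hP0.le
      rw [Real.log_mul hP0.ne' ha0.ne', ← g.hL] at h6
      linarith
    have hP5 := g.hP5
    have hP6 := g.hP6
    calc n * Real.log ((b : ℝ) / a) ≤ L / P ^ 3 * Real.log ((b : ℝ) / a) :=
          mul_le_mul_of_nonneg_right h1 h4
      _ ≤ L / P ^ 3 * Real.log (2 * L ^ 2 * P) := mul_le_mul_of_nonneg_left h3 (by positivity)
      _ < L / P ^ 3 * (P ^ 3 / 2) := by
          apply mul_lt_mul_of_pos_left _ (by positivity)
          linarith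
      _ = L / 2 := by field_simp
      _ ≤ Real.log a := by linarith
  · -- `a > H`
    have haHn : H < a := by
      refine lt_of_le_of_lt ?_ hj0a
      exact Nat.le_mul_of_pos_left H hz
    have haH : (H : ℝ) ≤ a := by exact_mod_cast haHn.le
    obtain ⟨i, hiI, hia, hai⟩ := exists_dyadic I haHn haI
    have hia' : (2 : ℝ) ^ i * H ≤ a := by exact_mod_cast hia.le
    have h1 : (n : ℝ) ≤ L / P ^ 3 + ((2 : ℝ) ^ (i + 1) - 1) * (2 * H * P ^ 2 / (Q * L)) := by
      refine le_trans ?_ (g.count_up (i + 1) (by omega))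
      rw [← hca]
      have : a + 1 ≤ 2 ^ (i + 1) * H + 1 := by omega
      exact_mod_cast Nat.count_monotone _ this
    have h2 : ((2 : ℝ) ^ (i + 1) - 1) * (2 * H * P ^ 2 / (Q * L)) ≤ 4 * a * P ^ 2 / (Q * L) := by
      rw [← mul_div_assoc, div_le_div_iff_of_pos_right (by positivity)]
      calc ((2 : ℝ) ^ (i + 1) - 1) * (2 * H * P ^ 2) ≤ (2 : ℝ) ^ (i + 1) * (2 * H * P ^ 2) := by
            refine mul_le_mul_of_nonneg_right (by linarith) (by positivity)
        _ = 4 * (2 ^ i * H) * P ^ 2 := by ring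
        _ ≤ 4 * a * P ^ 2 := by
            refine mul_le_mul_of_nonneg_right ?_ (by positivity)
            linarith
    have h3 : L / P ^ 3 ≤ a * P ^ 2 / (Q * L) := by
      rw [div_le_div_iff₀ (by positivity) (by positivity)]
      calc L * (Q * L) = Q * L ^ 2 := by ring
        _ ≤ 2 * (H * P ^ 4) := g.hH2
        _ ≤ 2 * (a * P ^ 4) := by
            have := mul_le_mul_of_nonneg_right haH (show 0 ≤ P ^ 4 by positivity)
            linarith
        _ ≤ P * (a * P ^ 4) := by
            refine mul_le_mul_of_nonneg_right (by linarith) (by positivity)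
        _ = a * P ^ 2 * P ^ 3 := by ring
    have h4 : (n : ℝ) ≤ 5 * a * P ^ 2 / (Q * L) := by
      have h5 : 5 * a * P ^ 2 / (Q * L) = a * P ^ 2 / (Q * L) + 4 * a * P ^ 2 / (Q * L) := by ring
      rw [h5]
      linarith
    have h5 : Real.log ((b : ℝ) / a) ≤ 2 * H / a := by
      have h6 := Real.log_le_sub_one_of_pos (show (0 : ℝ) < (b : ℝ) / a by positivity)
      refine h6.trans ?_
      rw [div_sub_one ha0.ne', div_le_div_iff_of_pos_right ha0]
      have h7 : (b : ℝ) ≤ (j0 + 2) * H := by exact_mod_cast hbj0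
      have h8 : (j0 : ℝ) * H ≤ a := by exact_mod_cast hj0a.le
      linarith
    have hLa : L ≤ Real.log a := by
      conv_lhs => rw [g.hL]
      exact Real.log_le_log hQ0 (hHQ'.trans haH)
    have hH1 := g.hH1
    have h6 : n * (2 * H / a) < L := by
      calc n * (2 * H / a) ≤ 5 * a * P ^ 2 / (Q * L) * (2 * H / a) :=
            mul_le_mul_of_nonneg_right h4 (by positivity)
        _ = 10 * (H * P ^ 4) / (Q * L * P ^ 2) := by field_simp; norm_num
        _ ≤ 10 * (Q * L ^ 2) / (Q * L * P ^ 2) := by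
            rw [div_le_div_iff_of_pos_right (by positivity)]
            linarith
        _ = 10 / P ^ 2 * L := by field_simp
        _ < 1 * L := by
            apply mul_lt_mul_of_pos_right _ hL0
            rw [div_lt_one (by positivity)]
            nlinarith
        _ = L := one_mul L
    calc n * Real.log ((b : ℝ) / a) ≤ n * (2 * H / a) := mul_le_mul_of_nonneg_left h5 hn0
      _ < L := h6
      _ ≤ Real.log a := hLa

/-- Upper bound for the `n`-th prime of the class. -/
theorem pn_bound (g : Good Q q r H I L P) {N n a : ℕ} (hn : 1 ≤ n) (hnN : n ≤ N)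
    (hN : 8 * Q * L * N ≤ ((2 : ℝ) ^ (I + 1) - 1) * H)
    (hca' : Nat.count (PC q r) a = n - 1) :
    a ≤ 2 ^ (I + 1) * H ∧ (a : ℝ) ≤ max (2 * (H : ℝ)) (32 * Q * L * N) := by
  have hQ0 := g.Q_pos
  have hL0 := g.L_pos
  have hH0 := g.H_pos
  have hnN' : (n : ℝ) ≤ N := by exact_mod_cast hnN
  have hn0 : (1 : ℝ) ≤ n := by exact_mod_cast hn
  have key : ∀ i, i ≤ I + 1 → 2 ^ i * H < a → ((2 : ℝ) ^ i - 1) * H < 8 * Q * L * n := by
    intro i hi hia
    have h1 := g.count_low i hi
    have h2 : Nat.count (PC q r) (2 ^ i * H + 1) ≤ n - 1 := by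
      rw [← hca']
      exact Nat.count_monotone _ hia
    have h3 : (Nat.count (PC q r) (2 ^ i * H + 1) : ℝ) ≤ n - 1 := by
      have : ((n - 1 : ℕ) : ℝ) = n - 1 := by
        rw [Nat.cast_sub hn]
        simp
      rw [← this]
      exact_mod_cast h2
    have h4 : ((2 : ℝ) ^ i - 1) * (H / (8 * Q * L)) < n := by linarith
    rw [← mul_div_assoc, div_lt_iff₀ (by positivity)] at h4
    linarith
  have haI : a ≤ 2 ^ (I + 1) * H := by
    by_contra h
    push Not at h
    have h1 := key (I + 1) le_rfl h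
    have h2 : 8 * Q * L * n ≤ 8 * Q * L * N := mul_le_mul_of_nonneg_left hnN' (by positivity)
    linarith
  refine ⟨haI, ?_⟩
  rcases Nat.lt_or_ge H a with h | h
  · obtain ⟨i, hiI, hia, hai⟩ := exists_dyadic I h haI
    rcases Nat.eq_zero_or_pos i with hi | hi
    · rw [hi] at hai
      refine le_trans ?_ (le_max_left _ _)
      have h1 : a ≤ 2 * H := by simpa using hai
      exact_mod_cast h1
    · refine le_trans ?_ (le_max_right _ _)
      have h1 := key i (by omega) hia
      have h2 : (2 : ℝ) ≤ 2 ^ i := by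
        calc (2 : ℝ) = 2 ^ 1 := (pow_one 2).symm
          _ ≤ 2 ^ i := pow_le_pow_right₀ (by norm_num) hi
      have h3 : (a : ℝ) ≤ 2 ^ (i + 1) * H := by exact_mod_cast hai
      have h4 : (2 : ℝ) ^ (i + 1) * H ≤ 4 * (((2 : ℝ) ^ i - 1) * H) := by
        have : (2 : ℝ) ^ (i + 1) ≤ 4 * ((2 : ℝ) ^ i - 1) := by
          rw [pow_succ]
          linarith
        have := mul_le_mul_of_nonneg_right this hH0.le
        linarith
      have h5 : 8 * Q * L * n ≤ 8 * Q * L * N := mul_le_mul_of_nonneg_left hnN' (by positivity)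
      linarith
  · refine le_trans ?_ (le_max_left _ _)
    have h1 : a ≤ 2 * H := by omega
    exact_mod_cast h1

end Good

/-- failure of the inequality at `n` -/
def Fail (q r n : ℕ) : Prop := ¬ (n * Real.log (Nat.nth (PC q r) n) <
    (n + 1) * Real.log (Nat.nth (PC q r) (n - 1)))

open Classical in
/-- indices of the irregular short windows -/
noncomputable def irrIdx (H q r J : ℕ) : Finset ℕ := (Icc 1 J).filter (fun j => Irr (j * H) H q r)

open Classical in
/-- failures up to `N` -/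
noncomputable def fails (q r N : ℕ) : Finset ℕ := (Icc 1 N).filter (fun n => Fail q r n)

/-- The number of failures is at most the number of irregular windows. -/
theorem card_fails_le {Q q r H I : ℕ} {L P : ℝ} (g : Good Q q r H I L P) {N T : ℕ}
    (hN : 8 * Q * L * N ≤ ((2 : ℝ) ^ (I + 1) - 1) * H)
    (hT : 2 * (H : ℝ) + 32 * Q * L * N ≤ (T - 1) * H) :
    (fails q r N).card ≤ (irrIdx H q r T).card := by
  classical
  have hinf := PC_infinite g.hrq g.hc
  have hHpos := g.Hn_pos
  have hH0 := g.H_pos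
  have hQ0 := g.Q_pos
  have hL0 := g.L_pos
  set p : ℕ → ℕ := fun n => Nat.nth (PC q r) (n - 1) with hp
  have hPC : ∀ n, PC q r (p n) := fun n => Nat.nth_mem_of_infinite hinf _
  have hcount : ∀ n, 1 ≤ n → Nat.count (PC q r) (p n + 1) = n := by
    intro n hn
    simp only [hp]
    rw [Nat.count_nth_succ_of_infinite hinf]
    omega
  have hcount' : ∀ n, Nat.count (PC q r) (p n) = n - 1 := by
    intro n
    simp only [hp]
    rw [Nat.count_nth_of_infinite hinf]
  have hmono : ∀ m n, 1 ≤ m → m < n → p m < p n := by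
    intro m n hm hmn
    exact Nat.nth_strictMono hinf (by omega)
  have hnext : ∀ n, 1 ≤ n → ∀ x, PC q r x → p n < x → p (n + 1) ≤ x := by
    intro n hn x hx hax
    have h1 : n ≤ Nat.count (PC q r) x := by
      rw [← hcount n hn]
      exact Nat.count_monotone _ hax
    calc p (n + 1) ≤ Nat.nth (PC q r) (Nat.count (PC q r) x) := by
          simp only [hp, Nat.add_sub_cancel]
          exact Nat.nth_monotone hinf h1
      _ = x := Nat.nth_count hx
  have hwin : ∀ n, 1 ≤ n → (p n - 1) / H * H < p n ∧ p n ≤ ((p n - 1) / H + 1) * H := by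
    intro n hn
    have h1 := (hPC n).1.one_le
    constructor
    · have := Nat.div_mul_le_self (p n - 1) H
      omega
    · have := Nat.lt_div_mul_add (a := p n - 1) hHpos
      have h2 : ((p n - 1) / H + 1) * H = (p n - 1) / H * H + H := by ring
      rw [h2]
      omega
  have hfail : ∀ n, 1 ≤ n → n ≤ N → Fail q r n → ¬ p (n + 1) ≤ ((p n - 1) / H + 2) * H := by
    intro n hn hnN hf hle
    apply hf
    have h1 := hwin n hn
    have h2 := g.pn_bound hn hnN hN (hcount' n)
    have h3 := g.ineq_of_gap (hPC n) (hmono n (n + 1) hn (by omega)) (hcount n hn) h1.1 h1.2 hle h2.1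
    simpa [hp] using h3
  refine Finset.card_le_card_of_injOn (fun n => (p n - 1) / H + 1) ?_ ?_
  · intro n hn
    rw [Finset.mem_coe, fails, Finset.mem_filter, Finset.mem_Icc] at hn
    obtain ⟨⟨hn1, hnN⟩, hf⟩ := hn
    rw [Finset.mem_coe, irrIdx, Finset.mem_filter, Finset.mem_Icc]
    change (1 ≤ (p n - 1) / H + 1 ∧ (p n - 1) / H + 1 ≤ T) ∧ Irr (((p n - 1) / H + 1) * H) H q r
    refine ⟨⟨Nat.le_add_left 1 _, ?_⟩, ?_⟩
    · have h2 := (g.pn_bound hn1 hnN hN (hcount' n)).2
      have h3 : (p n : ℝ) ≤ (T - 1) * H := by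
        refine h2.trans (le_trans ?_ hT)
        refine max_le ?_ ?_
        · have : 0 ≤ 32 * Q * L * N := by positivity
          linarith
        · linarith
      have hT1 : 1 ≤ T := by
        by_contra h
        have h0 : T = 0 := by omega
        rw [h0] at h3
        have h4 : (0 : ℝ) ≤ p n := Nat.cast_nonneg _
        simp at h3
        linarith
      have h4 : p n ≤ (T - 1) * H := by
        have h5 : ((p n : ℕ) : ℝ) ≤ (((T - 1) * H : ℕ) : ℝ) := by
          push_cast [Nat.cast_sub hT1]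
          exact h3
        exact_mod_cast h5
      have h5 : (p n - 1) / H < T - 1 := by
        rw [Nat.div_lt_iff_lt_mul hHpos]
        have := (hPC n).1.one_le
        omega
      omega
    · by_contra hreg
      apply hfail n hn1 hnN hf
      have h1 : ((H : ℕ) : ℝ) / 4 ≤ q.totient * fW (((p n - 1) / H + 1) * H) H q r := by
        unfold Irr at hreg
        exact (not_not.1 hreg).1
      have h2 : ((wp (((p n - 1) / H + 1) * H) H).filter (fun p => p % q = r)).Nonempty := by
        by_contra h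
        rw [Finset.not_nonempty_iff_eq_empty] at h
        unfold fW at h1
        rw [h, Finset.sum_empty, mul_zero] at h1
        linarith
      obtain ⟨x, hx⟩ := h2
      rw [Finset.mem_filter, mem_wp] at hx
      have h3 := (hwin n hn1).2
      have h4 := hnext n hn1 x ⟨hx.1.2, hx.2⟩ (lt_of_le_of_lt h3 hx.1.1.1)
      refine h4.trans (hx.1.1.2.trans (le_of_eq ?_))
      ring
  · intro n hn m hm hnm
    rw [Finset.mem_coe, fails, Finset.mem_filter, Finset.mem_Icc] at hn hm
    have h1 : (p n - 1) / H = (p m - 1) / H := by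
      have : (p n - 1) / H + 1 = (p m - 1) / H + 1 := hnm
      omega
    have key : ∀ n m, (1 ≤ n ∧ n ≤ N) ∧ Fail q r n → (1 ≤ m ∧ m ≤ N) →
        (p n - 1) / H = (p m - 1) / H → ¬ n < m := by
      intro n m hn hm h1 hlt
      apply hfail n hn.1.1 hn.1.2 hn.2
      have h2 : p (n + 1) ≤ p m := by
        rcases Nat.lt_or_ge (n + 1) m with h | h
        · exact (hmono (n + 1) m (by omega) h).le
        · have : n + 1 = m := by omega
          rw [this]
      have h3 := (hwin m hm.1).2
      rw [← h1] at h3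
      refine h2.trans (h3.trans ?_)
      exact Nat.mul_le_mul_right H (by omega)
    have k1 := key n m hn hm.1 h1
    have k2 := key m n hm hn.1 h1.symm
    omega

end Pool.Agent.H37.SFQ
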