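import Pool.Agent.H37.SFQ.Add

/-!
The multiplicative large sieve inequality.
-/

set_option autoImplicit false

open Finset ComplexConjugate

namespace Pool.Agent.H37.SFQ

/-- primitive Dirichlet characters of level `d` -/
noncomputable def prims (d : ℕ) : Finset (DirichletCharacter ℂ d) := by
  classical exact univ.filter (fun χ => χ.IsPrimitive)

lemma mem_prims {d : ℕ} {χ : DirichletCharacter ℂ d} : χ ∈ prims d ↔ χ.IsPrimitive := by
  simp [prims]

lemma conj_char {d : ℕ} (χ : DirichletCharacter ℂ d) (a : ZMod d) : conj (χ a) = χ⁻¹ a := by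
  by_cases h : IsUnit a
  · rw [MulChar.inv_apply_eq_inv', Complex.inv_eq_conj]
    exact χ.unit_norm_eq_one h.unit
  · rw [MulChar.map_nonunit _ h, MulChar.map_nonunit _ h, map_zero]

lemma sum_char_mul_conj {d : ℕ} [NeZero d] (a b : ZMod d) :
    ∑ χ : DirichletCharacter ℂ d, χ a * conj (χ b) =
      if a = b ∧ IsUnit b then (d.totient : ℂ) else 0 := by
  by_cases h : IsUnit b
  · have h1 := DirichletCharacter.sum_char_inv_mul_char_eq ℂ h a
    have h2 : ∀ χ : DirichletCharacter ℂ d, χ a * conj (χ b) = χ b⁻¹ * χ a := by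
      intro χ
      rw [conj_char, mul_comm]
      congr 1
      rw [MulChar.inv_apply]
      congr 1
      obtain ⟨u, rfl⟩ := h
      rw [Ring.inverse_unit, ZMod.inv_coe_unit]
    simp_rw [h2, h1]
    by_cases hab : a = b
    · subst hab
      simp [h]
    · rw [if_neg (fun hc => hab hc.symm), if_neg (fun hc => hab hc.1)]
  · rw [if_neg (fun hc => h hc.2)]
    refine Finset.sum_eq_zero fun χ _ => ?_
    rw [MulChar.map_nonunit _ h, map_zero, mul_zero]

/-- Parseval for the group of Dirichlet characters. -/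
lemma sum_sq_chars {d : ℕ} [NeZero d] (A : ZMod d → ℂ) :
    ∑ χ : DirichletCharacter ℂ d, ‖∑ c : ZMod d, χ c * A c‖ ^ 2 =
      d.totient * ∑ c : ZMod d, if IsUnit c then ‖A c‖ ^ 2 else 0 := by
  have h1 : ((∑ χ : DirichletCharacter ℂ d, ‖∑ c : ZMod d, χ c * A c‖ ^ 2 : ℝ) : ℂ) =
      ((d.totient * ∑ c : ZMod d, if IsUnit c then ‖A c‖ ^ 2 else 0 : ℝ) : ℂ) := by
    push_cast
    have h2 : ∀ χ : DirichletCharacter ℂ d, (‖∑ c : ZMod d, χ c * A c‖ : ℂ) ^ 2 =
        ∑ c : ZMod d, ∑ c' : ZMod d, (A c * conj (A c')) * (χ c * conj (χ c')) := by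
      intro χ
      rw [← Complex.mul_conj', map_sum, Finset.sum_mul_sum]
      refine Finset.sum_congr rfl fun c _ => Finset.sum_congr rfl fun c' _ => ?_
      rw [map_mul]
      ring
    simp_rw [h2]
    rw [Finset.sum_comm, Finset.mul_sum]
    refine Finset.sum_congr rfl fun c _ => ?_
    rw [Finset.sum_comm]
    simp_rw [← Finset.mul_sum, sum_char_mul_conj]
    rw [Finset.sum_eq_single c]
    · by_cases h : IsUnit c
      · rw [if_pos ⟨rfl, h⟩, if_pos h, Complex.mul_conj']
        push_cast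
        ring
      · rw [if_neg (fun hc => h hc.2), if_neg h]
        simp
    · intro c' _ hc'
      rw [if_neg (fun hc => hc' hc.1.symm), mul_zero]
    · intro hc
      exact absurd (Finset.mem_univ c) hc
  exact_mod_cast h1

lemma sum_unit_one {d : ℕ} [NeZero d] :
    ∑ c : ZMod d, (if IsUnit c then (1 : ℝ) else 0) = d.totient := by
  classical
  have h1 := MulChar.sum_one_eq_card_units (R := ZMod d) (R' := ℝ)
  rw [ZMod.card_units_eq_totient] at h1
  rw [← h1]
  refine Finset.sum_congr rfl fun c _ => ?_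
  by_cases h : IsUnit c
  · rw [if_pos h]
    obtain ⟨u, rfl⟩ := h
    rw [MulChar.one_apply_coe]
  · rw [if_neg h, MulChar.map_nonunit _ h]

/-- The modulus of the Gauss sum of a primitive character. -/
lemma norm_gauss_sq {d : ℕ} [NeZero d] {χ : DirichletCharacter ℂ d} (hχ : χ.IsPrimitive) :
    ‖gaussSum χ ZMod.stdAddChar‖ ^ 2 = d := by
  classical
  set ψ : AddChar (ZMod d) ℂ := ZMod.stdAddChar with hψ
  have hprim : ψ.IsPrimitive := ZMod.isPrimitive_stdAddChar d
  have hconj : ∀ x : ZMod d, conj (ψ x) = ψ (-x) := by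
    intro x
    rw [hψ, ZMod.stdAddChar_apply, ZMod.stdAddChar_apply, AddChar.map_neg_eq_inv,
      Circle.coe_inv_eq_conj]
  have hpos : (0 : ℝ) < d.totient := by
    have : 0 < d.totient := Nat.totient_pos.2 (Nat.pos_of_ne_zero (NeZero.ne d))
    exact_mod_cast this
  -- first evaluation
  have h1 : ∑ a : ZMod d, ‖gaussSum χ (ψ.mulShift a)‖ ^ 2 = d.totient * ‖gaussSum χ ψ‖ ^ 2 := by
    rw [← sum_unit_one, Finset.sum_mul]
    refine Finset.sum_congr rfl fun a _ => ?_
    rw [gaussSum_mulShift_of_isPrimitive _ hχ, norm_mul, mul_pow]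
    congr 1
    by_cases h : IsUnit a
    · rw [if_pos h]
      have := (χ⁻¹).unit_norm_eq_one h.unit
      rw [IsUnit.unit_spec] at this
      rw [this, one_pow]
    · rw [if_neg h, MulChar.map_nonunit _ h]
      simp
  have h2 : ((∑ a : ZMod d, ‖gaussSum χ (ψ.mulShift a)‖ ^ 2 : ℝ) : ℂ) =
      ((d.totient * d : ℝ) : ℂ) := by
    push_cast
    have h3 : ∀ a : ZMod d, (‖gaussSum χ (ψ.mulShift a)‖ : ℂ) ^ 2 =
        ∑ c : ZMod d, ∑ c' : ZMod d, (χ c * conj (χ c')) * ψ (a * (c - c')) := by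
      intro a
      rw [← Complex.mul_conj', gaussSum, map_sum, Finset.sum_mul_sum]
      refine Finset.sum_congr rfl fun c _ => Finset.sum_congr rfl fun c' _ => ?_
      rw [map_mul, AddChar.mulShift_apply, AddChar.mulShift_apply, hconj, mul_sub,
        sub_eq_add_neg, AddChar.map_add_eq_mul]
      ring
    simp_rw [h3]
    rw [Finset.sum_comm]
    have h4 : ∀ c : ZMod d, ∑ a : ZMod d, ∑ c' : ZMod d, (χ c * conj (χ c')) * ψ (a * (c - c')) =
        (if IsUnit c then (1 : ℂ) else 0) * d := by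
      intro c
      rw [Finset.sum_comm]
      simp_rw [← Finset.mul_sum, AddChar.sum_mulShift _ hprim]
      rw [Finset.sum_eq_single c]
      · rw [sub_self, if_pos rfl, ZMod.card, Complex.mul_conj']
        by_cases h : IsUnit c
        · rw [if_pos h]
          have := χ.unit_norm_eq_one h.unit
          rw [IsUnit.unit_spec] at this
          rw [this]
          simp
        · rw [if_neg h, MulChar.map_nonunit _ h]
          simp
      · intro c' _ hc'
        rw [if_neg (fun hc => hc' (sub_eq_zero.1 hc).symm)]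
        simp
      · intro hc
        exact absurd (Finset.mem_univ c) hc
    rw [Finset.sum_congr rfl fun c _ => h4 c, ← Finset.sum_mul]
    congr 1
    have h6 : ((∑ c : ZMod d, (if IsUnit c then (1 : ℝ) else 0) : ℝ) : ℂ) = d.totient := by
      rw [sum_unit_one (d := d), Complex.ofReal_natCast]
    rw [← h6, Complex.ofReal_sum]
    refine Finset.sum_congr rfl fun c _ => ?_
    split_ifs <;> simp
  have h7 : ∑ a : ZMod d, ‖gaussSum χ (ψ.mulShift a)‖ ^ 2 = (d.totient * d : ℝ) := by
    exact_mod_cast h2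
  rw [h1] at h7
  exact mul_left_cancel₀ hpos.ne' h7

lemma stdAddChar_nat_mul {d : ℕ} [NeZero d] (n : ℕ) (c : ZMod d) :
    ZMod.stdAddChar ((n : ZMod d) * c) = e (n * ((c.val : ℝ) / d)) := by
  have h1 : ((n : ZMod d) * c) = (((n * c.val : ℕ) : ℤ) : ZMod d) := by
    push_cast
    rw [ZMod.natCast_zmod_val]
  rw [h1, ZMod.stdAddChar_coe]
  unfold e
  congr 1
  push_cast
  ring

/-- Sum over the primitive characters of a fixed level. -/
lemma prims_le {d : ℕ} [NeZero d] (S : Finset ℕ) (a : ℕ → ℂ) :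
    ∑ χ ∈ prims d, ‖∑ n ∈ S, a n * χ n‖ ^ 2 ≤
      ∑ c ∈ (range d).filter (fun c => c.Coprime d),
        ‖∑ n ∈ S, conj (a n) * e (n * ((c : ℝ) / d))‖ ^ 2 := by
  classical
  set ψ : AddChar (ZMod d) ℂ := ZMod.stdAddChar with hψ
  set B : ZMod d → ℂ := fun c => ∑ n ∈ S, conj (a n) * e (n * ((c.val : ℝ) / d)) with hB
  have hd : (0 : ℝ) < d := by
    have := Nat.pos_of_ne_zero (NeZero.ne d)
    exact_mod_cast this
  have h1 : ∀ χ ∈ prims d, (d : ℝ) * ‖∑ n ∈ S, a n * χ n‖ ^ 2 = ‖∑ c : ZMod d, χ c * B c‖ ^ 2 := by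
    intro χ hχ
    rw [mem_prims] at hχ
    have h2 : conj (∑ n ∈ S, a n * χ n) * gaussSum χ ψ = ∑ c : ZMod d, χ c * B c := by
      rw [map_sum, Finset.sum_mul]
      have h3 : ∀ n ∈ S, conj (a n * χ n) * gaussSum χ ψ =
          ∑ c : ZMod d, χ c * (conj (a n) * e (n * ((c.val : ℝ) / d))) := by
        intro n _
        rw [map_mul, conj_char, mul_assoc, ← gaussSum_mulShift_of_isPrimitive _ hχ, gaussSum,
          Finset.mul_sum]
        refine Finset.sum_congr rfl fun c _ => ?_
        rw [AddChar.mulShift_apply, hψ, stdAddChar_nat_mul]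
        ring
      rw [Finset.sum_congr rfl h3, Finset.sum_comm]
      refine Finset.sum_congr rfl fun c _ => ?_
      rw [hB, Finset.mul_sum]
    rw [← h2, norm_mul, mul_pow, norm_gauss_sq hχ, RCLike.norm_conj, mul_comm]
  have h4 : (d : ℝ) * ∑ χ ∈ prims d, ‖∑ n ∈ S, a n * χ n‖ ^ 2 ≤
      d.totient * ∑ c : ZMod d, if IsUnit c then ‖B c‖ ^ 2 else 0 := by
    rw [← sum_sq_chars B, Finset.mul_sum, Finset.sum_congr rfl h1]
    exact Finset.sum_le_sum_of_subset_of_nonneg (Finset.subset_univ _) fun _ _ _ => by positivity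
  have h5 : ∑ c : ZMod d, (if IsUnit c then ‖B c‖ ^ 2 else 0) =
      ∑ c ∈ (range d).filter (fun c => c.Coprime d),
        ‖∑ n ∈ S, conj (a n) * e (n * ((c : ℝ) / d))‖ ^ 2 := by
    rw [← Finset.sum_filter]
    refine Finset.sum_nbij' (fun c => c.val) (fun c => (c : ZMod d)) ?_ ?_ ?_ ?_ ?_
    · intro c hc
      rw [Finset.mem_filter] at hc ⊢
      refine ⟨Finset.mem_range.2 (ZMod.val_lt c), ?_⟩
      obtain ⟨u, hu⟩ := hc.2
      rw [← hu]
      exact ZMod.val_coe_unit_coprime u
    · intro c hc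
      rw [Finset.mem_filter] at hc ⊢
      exact ⟨Finset.mem_univ _, (ZMod.isUnit_iff_coprime c d).2 hc.2⟩
    · intro c _
      simp
    · intro c hc
      rw [Finset.mem_filter, Finset.mem_range] at hc
      exact ZMod.val_natCast_of_lt hc.1
    · intro c _
      rfl
  rw [h5] at h4
  set Y := ∑ c ∈ (range d).filter (fun c => c.Coprime d),
        ‖∑ n ∈ S, conj (a n) * e (n * ((c : ℝ) / d))‖ ^ 2 with hY
  have hY0 : 0 ≤ Y := Finset.sum_nonneg fun _ _ => by positivity
  have h6 : (d.totient : ℝ) ≤ d := by exact_mod_cast Nat.totient_le d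
  have h7 : (d : ℝ) * ∑ χ ∈ prims d, ‖∑ n ∈ S, a n * χ n‖ ^ 2 ≤ d * Y :=
    h4.trans (mul_le_mul_of_nonneg_right h6 hY0)
  exact le_of_mul_le_mul_left h7 hd

/-- The multiplicative large sieve inequality. -/
theorem mult_large_sieve {R : ℕ} (hR : 1 ≤ R) (M N : ℕ) (a : ℕ → ℂ) :
    ∑ d ∈ Icc 1 R, ∑ χ ∈ prims d, ‖∑ n ∈ Ioc M (M + N), a n * χ n‖ ^ 2 ≤
      5 * ((N : ℝ) + (R : ℝ) ^ 2) * ∑ n ∈ Ioc M (M + N), ‖a n‖ ^ 2 := by
  classical
  have h1 : ∑ d ∈ Icc 1 R, ∑ χ ∈ prims d, ‖∑ n ∈ Ioc M (M + N), a n * χ n‖ ^ 2 ≤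
      ∑ d ∈ Icc 1 R, ∑ c ∈ (range d).filter (fun c => c.Coprime d),
        ‖∑ n ∈ Ioc M (M + N), conj (a n) * e (n * ((c : ℝ) / d))‖ ^ 2 := by
    refine Finset.sum_le_sum fun d hd => ?_
    rw [Finset.mem_Icc] at hd
    have : NeZero d := ⟨by omega⟩
    exact prims_le _ _
  refine h1.trans ?_
  rw [← Finset.sum_sigma (Icc 1 R) (fun d => (range d).filter (fun c => c.Coprime d))
    (fun x : (Σ _ : ℕ, ℕ) => ‖∑ n ∈ Ioc M (M + N), conj (a n) * e (n * ((x.2 : ℝ) / x.1))‖ ^ 2)]
  have h2 := add_large_sieve ((Icc 1 R).sigma (fun d => (range d).filter (fun c => c.Coprime d)))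
    (fun x : (Σ _ : ℕ, ℕ) => (x.2 : ℝ) / x.1) hR ?_ M N (fun n => conj (a n))
  · refine h2.trans (le_of_eq ?_)
    congr 1
    refine Finset.sum_congr rfl fun n _ => ?_
    rw [RCLike.norm_conj]
  · rintro ⟨d, c⟩ hx ⟨d', c'⟩ hx' hne k
    simp only [Finset.mem_sigma, Finset.mem_filter, Finset.mem_Icc, Finset.mem_range] at hx hx'
    simp only
    have hd : (0 : ℝ) < d := by
      have : 0 < d := by omega
      exact_mod_cast this
    have hd' : (0 : ℝ) < d' := by
      have : 0 < d' := by omega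
      exact_mod_cast this
    have h3 : (c : ℝ) / d - (c' : ℝ) / d' - k =
        (((c : ℤ) * d' - c' * d - k * d * d' : ℤ) : ℝ) / (d * d') := by
      push_cast
      field_simp
    have h4 : ((c : ℤ) * d' - c' * d - k * d * d' : ℤ) ≠ 0 := by
      intro h0
      apply hne
      -- d divides c * d', hence d ∣ d'
      have h5 : (d : ℤ) ∣ c * d' := ⟨c' + k * d', by linear_combination h0⟩
      have h6 : (d' : ℤ) ∣ c' * d := ⟨c - k * d, by linear_combination -h0⟩
      have h7 : d ∣ c * d' := by exact_mod_cast h5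
      have h8 : d' ∣ c' * d := by exact_mod_cast h6
      have h9 : d ∣ d' := (Nat.Coprime.dvd_mul_left (Nat.Coprime.symm hx.2.2)).1 h7
      have h10 : d' ∣ d := (Nat.Coprime.dvd_mul_left (Nat.Coprime.symm hx'.2.2)).1 h8
      have h11 : d = d' := Nat.dvd_antisymm h9 h10
      subst h11
      have h12 : (c : ℤ) - c' - k * d = 0 := by
        have h13 : (d : ℤ) * ((c : ℤ) - c' - k * d) = 0 := by linear_combination h0
        rcases mul_eq_zero.1 h13 with h14 | h14
        · have : (d : ℤ) ≠ 0 := by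
            have : 0 < d := by omega
            exact_mod_cast this.ne'
          exact absurd h14 this
        · exact h14
      have hk : k = 0 := by
        have hc1 := hx.2.1
        have hc2 := hx'.2.1
        by_contra hk
        rcases lt_or_gt_of_ne hk with hk | hk
        · have : k * d ≤ -1 * d := by
            have : (0:ℤ) ≤ d := by positivity
            nlinarith
          omega
        · have : 1 * (d:ℤ) ≤ k * d := by
            have : (0:ℤ) ≤ d := by positivity
            nlinarith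
          omega
      subst hk
      have h15 : c = c' := by
        have : (c : ℤ) = c' := by linarith
        exact_mod_cast this
      rw [h15]
    have h5 : (1 : ℝ) ≤ |(((c : ℤ) * d' - c' * d - k * d * d' : ℤ) : ℝ)| := by
      rw [← Int.cast_abs]
      exact_mod_cast Int.one_le_abs h4
    rw [h3, abs_div, abs_of_pos (mul_pos hd hd'), div_mul_eq_mul_div, le_div_iff₀ (mul_pos hd hd'),
      one_mul]
    have hdR : (d : ℝ) ≤ R := by exact_mod_cast hx.1.2
    have hdR' : (d' : ℝ) ≤ R := by exact_mod_cast hx'.1.2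
    have h6 : (d : ℝ) * d' ≤ R ^ 2 := by nlinarith
    nlinarith [sq_nonneg (R : ℝ)]

end Pool.Agent.H37.SFQ
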