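import Mathlib

/-!
Selberg weights for sifting by the zero class, diagonalisation of the quadratic form.
-/

set_option autoImplicit false

open Finset

namespace Pool.Agent.H37.SFQ

noncomputable section

/-- `G(R) = ∑_{k ≤ R} μ²(k)/φ(k)` -/
def selG (R : ℕ) : ℝ := ∑ k ∈ Icc 1 R, if Squarefree k then (1 : ℝ) / Nat.totient k else 0

/-- diagonal coordinates -/
def selY (R k : ℕ) : ℝ :=
  if 1 ≤ k ∧ k ≤ R ∧ Squarefree k then (ArithmeticFunction.moebius k : ℝ) / (Nat.totient k * selG R)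
  else 0

/-- the Selberg weights -/
def selL (R e : ℕ) : ℝ :=
  e * ∑ k ∈ Icc 1 R, if e ∣ k then (ArithmeticFunction.moebius (k / e) : ℝ) * selY R k else 0

lemma selG_pos {R : ℕ} (hR : 1 ≤ R) : 0 < selG R := by
  unfold selG
  have h1 : (1 : ℝ) ≤ ∑ k ∈ Icc 1 R, if Squarefree k then (1 : ℝ) / Nat.totient k else 0 := by
    have h2 : (if Squarefree 1 then (1 : ℝ) / Nat.totient 1 else 0) = 1 := by simp
    exact le_trans (le_of_eq h2.symm)
      (Finset.single_le_sum (f := fun k : ℕ => if Squarefree k then (1 : ℝ) / Nat.totient k else 0)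
      (fun k _ => by positivity) (Finset.mem_Icc.2 ⟨le_refl 1, hR⟩))
  linarith

lemma moeb_sq {k : ℕ} (hk : Squarefree k) : (ArithmeticFunction.moebius k : ℝ) ^ 2 = 1 := by
  exact_mod_cast ArithmeticFunction.moebius_sq_eq_one_of_squarefree hk

lemma abs_moeb {k : ℕ} (hk : Squarefree k) : |(ArithmeticFunction.moebius k : ℝ)| = 1 := by
  have := moeb_sq hk
  rw [← sq_abs] at this
  nlinarith [abs_nonneg (ArithmeticFunction.moebius k : ℝ)]

lemma sum_abs_selY {R : ℕ} (hR : 1 ≤ R) : ∑ k ∈ Icc 1 R, |selY R k| = 1 := by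
  have hG := selG_pos hR
  have h1 : ∀ k ∈ Icc 1 R, |selY R k| =
      (if Squarefree k then (1 : ℝ) / Nat.totient k else 0) / selG R := by
    intro k hk
    rw [Finset.mem_Icc] at hk
    unfold selY
    by_cases h : Squarefree k
    · rw [if_pos ⟨hk.1, hk.2, h⟩, if_pos h, abs_div, abs_moeb h, abs_of_nonneg (by positivity),
        div_div]
    · rw [if_neg (fun hc => h hc.2.2), if_neg h]
      simp
  rw [Finset.sum_congr rfl h1, ← Finset.sum_div]
  exact div_self hG.ne'

lemma selL_one {R : ℕ} (hR : 1 ≤ R) : selL R 1 = 1 := by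
  have hG := selG_pos hR
  unfold selL
  have h1 : ∀ k ∈ Icc 1 R, (if 1 ∣ k then (ArithmeticFunction.moebius (k / 1) : ℝ) * selY R k else 0) =
      (if Squarefree k then (1 : ℝ) / Nat.totient k else 0) / selG R := by
    intro k hk
    rw [Finset.mem_Icc] at hk
    rw [if_pos (one_dvd k), Nat.div_one]
    unfold selY
    by_cases h : Squarefree k
    · rw [if_pos ⟨hk.1, hk.2, h⟩, if_pos h, div_div, ← mul_div_assoc, ← sq, moeb_sq h]
    · rw [if_neg (fun hc => h hc.2.2), if_neg h]
      simp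
  rw [Finset.sum_congr rfl h1, ← Finset.sum_div]
  simp only [Nat.cast_one, one_mul]
  exact div_self hG.ne'

lemma abs_selL_le {R : ℕ} (hR : 1 ≤ R) (e : ℕ) : |selL R e| ≤ e := by
  unfold selL
  rw [abs_mul, abs_of_nonneg (Nat.cast_nonneg e)]
  have h1 : |∑ k ∈ Icc 1 R, if e ∣ k then (ArithmeticFunction.moebius (k / e) : ℝ) * selY R k else 0|
      ≤ 1 := by
    rw [← sum_abs_selY hR]
    refine (Finset.abs_sum_le_sum_abs _ _).trans (Finset.sum_le_sum fun k _ => ?_)
    split_ifs
    · rw [abs_mul]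
      have h2 : |(ArithmeticFunction.moebius (k / e) : ℝ)| ≤ 1 := by
        exact_mod_cast ArithmeticFunction.abs_moebius_le_one (n := k / e)
      have := mul_le_mul_of_nonneg_right h2 (abs_nonneg (selY R k))
      linarith
    · simp
  have := mul_le_mul_of_nonneg_left h1 (Nat.cast_nonneg (α := ℝ) e)
  linarith

lemma sum_moeb (n : ℕ) : ∑ i ∈ n.divisors, (ArithmeticFunction.moebius i : ℝ) =
    if n = 1 then 1 else 0 := by
  have h1 := ArithmeticFunction.moebius_mul_coe_zeta
  have h2 : (ArithmeticFunction.moebius * (ArithmeticFunction.zeta : ArithmeticFunction ℤ)) n =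
      (1 : ArithmeticFunction ℤ) n := by rw [h1]
  rw [ArithmeticFunction.coe_mul_zeta_apply, ArithmeticFunction.one_apply] at h2
  have h3 : ((∑ i ∈ n.divisors, ArithmeticFunction.moebius i : ℤ) : ℝ) =
      ((if n = 1 then 1 else 0 : ℤ) : ℝ) := by rw [h2]
  push_cast at h3
  exact h3

lemma inner_moeb {R k j : ℕ} (hk : 1 ≤ k) (hj : 1 ≤ j) (hjR : j ≤ R) :
    (∑ e ∈ Icc 1 R, if k ∣ e ∧ e ∣ j then (ArithmeticFunction.moebius (j / e) : ℝ) else 0) =
      if j = k then 1 else 0 := by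
  rw [← Finset.sum_filter]
  by_cases hkj : k ∣ j
  · obtain ⟨m, rfl⟩ := hkj
    have hm : m ≠ 0 := by rintro rfl; simp at hj
    have hk0 : 0 < k := hk
    have h1 : ∑ e ∈ (Icc 1 R).filter (fun e => k ∣ e ∧ e ∣ k * m),
        (ArithmeticFunction.moebius (k * m / e) : ℝ) =
        ∑ i ∈ m.divisors, (ArithmeticFunction.moebius i : ℝ) := by
      refine Finset.sum_nbij' (fun e => k * m / e) (fun i => k * m / i) ?_ ?_ ?_ ?_ ?_
      · intro e he
        rw [Finset.mem_filter, Finset.mem_Icc] at he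
        obtain ⟨⟨h1, h2⟩, ⟨a, rfl⟩, ⟨b, hb⟩⟩ := he
        have ha : 0 < a := Nat.pos_of_ne_zero (by rintro rfl; simp at h1)
        have hm' : m = a * b := by
          have : k * m = k * (a * b) := by rw [hb]; ring
          exact Nat.eq_of_mul_eq_mul_left hk0 this
        rw [Nat.mem_divisors]
        refine ⟨⟨a, ?_⟩, hm⟩
        rw [hb, Nat.mul_div_cancel_left _ (by positivity), hm', mul_comm]
      · intro i hi
        rw [Nat.mem_divisors] at hi
        obtain ⟨⟨b, rfl⟩, _⟩ := hi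
        have hi0 : 0 < i := Nat.pos_of_ne_zero (by rintro rfl; simp at hm)
        have hb0 : 0 < b := Nat.pos_of_ne_zero (by rintro rfl; simp at hm)
        have h2 : k * (i * b) / i = k * b := by
          rw [show k * (i * b) = i * (k * b) by ring, Nat.mul_div_cancel_left _ hi0]
        rw [Finset.mem_filter, Finset.mem_Icc, h2]
        refine ⟨⟨Nat.mul_pos hk0 hb0, ?_⟩, ⟨b, rfl⟩, ⟨i, by ring⟩⟩
        refine le_trans ?_ hjR
        exact Nat.mul_le_mul_left k (Nat.le_mul_of_pos_left b hi0)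
      · intro e he
        rw [Finset.mem_filter, Finset.mem_Icc] at he
        exact Nat.div_div_self he.2.2 (by positivity)
      · intro i hi
        rw [Nat.mem_divisors] at hi
        exact Nat.div_div_self (hi.1.mul_left k) (by positivity)
      · intro e _
        rfl
    rw [h1, sum_moeb m]
    by_cases h2 : m = 1
    · subst h2; simp
    · rw [if_neg h2, if_neg]
      intro h3
      apply h2
      have : k * m = k * 1 := by rw [h3, mul_one]
      exact Nat.eq_of_mul_eq_mul_left hk0 this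
  · rw [if_neg (fun h => hkj (by rw [h]))]
    refine Finset.sum_eq_zero fun e he => ?_
    rw [Finset.mem_filter] at he
    exact absurd (he.2.1.trans he.2.2) hkj

lemma selL_inv {R k : ℕ} (hk : 1 ≤ k) (hkR : k ≤ R) :
    (∑ e ∈ Icc 1 R, if k ∣ e then selL R e / e else 0) = selY R k := by
  have h1 : ∀ e ∈ Icc 1 R, (if k ∣ e then selL R e / e else 0) =
      ∑ j ∈ Icc 1 R, selY R j * (if k ∣ e ∧ e ∣ j then (ArithmeticFunction.moebius (j / e) : ℝ) else 0) := by
    intro e he
    rw [Finset.mem_Icc] at he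
    have he0 : (e : ℝ) ≠ 0 := by
      have : e ≠ 0 := by omega
      exact_mod_cast this
    by_cases h : k ∣ e
    · rw [if_pos h]
      unfold selL
      rw [mul_div_cancel_left₀ _ he0]
      refine Finset.sum_congr rfl fun j _ => ?_
      by_cases h2 : e ∣ j
      · rw [if_pos h2, if_pos ⟨h, h2⟩, mul_comm]
      · rw [if_neg h2, if_neg (fun hc => h2 hc.2), mul_zero]
    · rw [if_neg h]
      symm
      refine Finset.sum_eq_zero fun j _ => ?_
      rw [if_neg (fun hc => h hc.1), mul_zero]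
  rw [Finset.sum_congr rfl h1, Finset.sum_comm]
  simp_rw [← Finset.mul_sum]
  rw [Finset.sum_eq_single k]
  · rw [inner_moeb hk hk hkR, if_pos rfl, mul_one]
  · intro j hj hjk
    rw [Finset.mem_Icc] at hj
    rw [inner_moeb hk hj.1 hj.2, if_neg hjk, mul_zero]
  · intro h
    exact absurd (Finset.mem_Icc.2 ⟨hk, hkR⟩) h

/-- The quadratic form. -/
lemma selL_quad {R : ℕ} (hR : 1 ≤ R) :
    ∑ a ∈ Icc 1 R, ∑ b ∈ Icc 1 R, selL R a * selL R b / (Nat.lcm a b : ℝ) = 1 / selG R := by
  have hG := selG_pos hR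
  have h1 : ∀ a ∈ Icc 1 R, ∀ b ∈ Icc 1 R, selL R a * selL R b / (Nat.lcm a b : ℝ) =
      ∑ k ∈ Icc 1 R, (Nat.totient k : ℝ) * ((if k ∣ a then selL R a / a else 0) *
        (if k ∣ b then selL R b / b else 0)) := by
    intro a ha b hb
    rw [Finset.mem_Icc] at ha hb
    have ha0 : (a : ℝ) ≠ 0 := by
      have : a ≠ 0 := by omega
      exact_mod_cast this
    have hb0 : (b : ℝ) ≠ 0 := by
      have : b ≠ 0 := by omega
      exact_mod_cast this
    have hg0 : Nat.gcd a b ≠ 0 := by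
      intro h
      rw [Nat.gcd_eq_zero_iff] at h
      omega
    have h2 : (Nat.gcd a b : ℝ) = ∑ k ∈ Icc 1 R, if k ∣ a ∧ k ∣ b then (Nat.totient k : ℝ) else 0 := by
      rw [← Finset.sum_filter]
      have h3 := Nat.sum_totient (Nat.gcd a b)
      have h4 : (Nat.gcd a b).divisors = (Icc 1 R).filter (fun k => k ∣ a ∧ k ∣ b) := by
        ext k
        rw [Nat.mem_divisors, Finset.mem_filter, Finset.mem_Icc, Nat.dvd_gcd_iff]
        constructor
        · rintro ⟨h5, _⟩
          exact ⟨⟨Nat.pos_of_dvd_of_pos h5.1 (by omega), (Nat.le_of_dvd (by omega) h5.1).trans ha.2⟩, h5⟩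
        · rintro ⟨_, h5⟩
          exact ⟨h5, hg0⟩
      rw [← h4]
      exact_mod_cast h3.symm
    have h3 : (Nat.gcd a b : ℝ) * (Nat.lcm a b : ℝ) = a * b := by
      exact_mod_cast Nat.gcd_mul_lcm a b
    have hl0 : (Nat.lcm a b : ℝ) ≠ 0 := by
      intro h
      rw [h, mul_zero] at h3
      exact mul_ne_zero ha0 hb0 h3.symm
    have h4 : selL R a * selL R b / (Nat.lcm a b : ℝ) =
        (Nat.gcd a b : ℝ) * (selL R a / a * (selL R b / b)) := by
      field_simp
      linear_combination (-(selL R a * selL R b)) * h3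
    rw [h4, h2, Finset.sum_mul]
    refine Finset.sum_congr rfl fun k _ => ?_
    by_cases h5 : k ∣ a
    · by_cases h6 : k ∣ b
      · rw [if_pos ⟨h5, h6⟩, if_pos h5, if_pos h6]
      · rw [if_neg (fun hc => h6 hc.2), if_neg h6]
        ring
    · rw [if_neg (fun hc => h5 hc.1), if_neg h5]
      ring
  have h2 : ∑ a ∈ Icc 1 R, ∑ b ∈ Icc 1 R, selL R a * selL R b / (Nat.lcm a b : ℝ) =
      ∑ k ∈ Icc 1 R, (Nat.totient k : ℝ) * selY R k ^ 2 := by
    rw [Finset.sum_congr rfl fun a ha => Finset.sum_congr rfl fun b hb => h1 a ha b hb]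
    have h3 : ∀ a ∈ Icc 1 R, ∑ b ∈ Icc 1 R, ∑ k ∈ Icc 1 R, (Nat.totient k : ℝ) *
        ((if k ∣ a then selL R a / a else 0) * (if k ∣ b then selL R b / b else 0)) =
        ∑ k ∈ Icc 1 R, (Nat.totient k : ℝ) * ((if k ∣ a then selL R a / a else 0) *
          ∑ b ∈ Icc 1 R, (if k ∣ b then selL R b / b else 0)) := by
      intro a _
      rw [Finset.sum_comm]
      refine Finset.sum_congr rfl fun k _ => ?_
      rw [Finset.mul_sum, Finset.mul_sum]
    rw [Finset.sum_congr rfl h3, Finset.sum_comm]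
    refine Finset.sum_congr rfl fun k hk => ?_
    rw [Finset.mem_Icc] at hk
    rw [← Finset.mul_sum, ← Finset.sum_mul, selL_inv hk.1 hk.2, sq]
  rw [h2]
  have h3 : ∀ k ∈ Icc 1 R, (Nat.totient k : ℝ) * selY R k ^ 2 =
      (if Squarefree k then (1 : ℝ) / Nat.totient k else 0) / selG R ^ 2 := by
    intro k hk
    rw [Finset.mem_Icc] at hk
    unfold selY
    have hφ : (Nat.totient k : ℝ) ≠ 0 := by
      have := Nat.totient_pos.2 (show 0 < k by omega)
      exact_mod_cast this.ne'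
    by_cases h : Squarefree k
    · rw [if_pos ⟨hk.1, hk.2, h⟩, if_pos h, div_pow, moeb_sq h]
      field_simp
    · rw [if_neg (fun hc => h hc.2.2), if_neg h]
      simp
  rw [Finset.sum_congr rfl h3, ← Finset.sum_div]
  change selG R / selG R ^ 2 = 1 / selG R
  field_simp

/-- Lower bound for `G`. -/
lemma selG_ge {R : ℕ} (hR : 1 ≤ R) : Real.log R / 3 ≤ selG R := by
  have h1 : Real.log R ≤ ∑ n ∈ Icc 1 R, (1 : ℝ) / n := by
    have h2 := log_add_one_le_harmonic R
    have h3 : ((harmonic R : ℚ) : ℝ) = ∑ n ∈ Icc 1 R, (1 : ℝ) / n := by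
      rw [harmonic_eq_sum_Icc]
      push_cast
      refine Finset.sum_congr rfl fun n _ => by rw [one_div]
    have h4 : Real.log R ≤ Real.log ((R : ℝ) + 1) := by
      refine Real.log_le_log ?_ (by linarith)
      exact_mod_cast hR
    have h5 : Real.log ((R : ℝ) + 1) = Real.log ((R + 1 : ℕ) : ℝ) := by push_cast; rfl
    rw [h5] at h4
    rw [h3] at h2
    exact h4.trans h2
  have h2 : ∑ n ∈ Icc 1 R, (1 : ℝ) / n ≤
      (∑ a ∈ Icc 1 R, (1 : ℝ) / (a : ℝ) ^ 2) * selG R := by
    -- `n = b² a` with `a` squarefree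
    have hex : ∀ n ∈ Icc 1 R, ∃ x : ℕ × ℕ, x.1 ^ 2 * x.2 = n ∧ x.1 ∈ Icc 1 R ∧ x.2 ∈ Icc 1 R ∧
        Squarefree x.2 := by
      intro n hn
      rw [Finset.mem_Icc] at hn
      obtain ⟨a, b, ha, hb, hab, hsq⟩ := Nat.sq_mul_squarefree_of_pos (show 0 < n by omega)
      refine ⟨(b, a), hab, ?_, ?_, hsq⟩
      · rw [Finset.mem_Icc]
        refine ⟨hb, le_trans ?_ hn.2⟩
        rw [← hab]
        nlinarith
      · rw [Finset.mem_Icc]
        refine ⟨ha, le_trans ?_ hn.2⟩
        rw [← hab]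
        nlinarith [Nat.one_le_pow 2 b hb]
    choose! F hF using hex
    unfold selG
    rw [Finset.sum_mul_sum]
    rw [← Finset.sum_product']
    have hinj : Set.InjOn F (Icc 1 R : Finset ℕ) := by
      intro n hn m hm h
      have h3 := (hF n hn).1
      have h4 := (hF m hm).1
      rw [← h3, ← h4, h]
    calc ∑ n ∈ Icc 1 R, (1 : ℝ) / n
        ≤ ∑ n ∈ Icc 1 R, ((1 : ℝ) / ((F n).1 : ℝ) ^ 2 *
            (if Squarefree (F n).2 then (1 : ℝ) / Nat.totient (F n).2 else 0)) := by
          refine Finset.sum_le_sum fun n hn => ?_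
          obtain ⟨h3, h4, h5, h6⟩ := hF n hn
          rw [if_pos h6]
          rw [Finset.mem_Icc] at h4 h5
          have h7 : (0 : ℝ) < (F n).1 := by exact_mod_cast h4.1
          have h8 : (0 : ℝ) < (F n).2 := by exact_mod_cast h5.1
          have h9 : (0 : ℝ) < Nat.totient (F n).2 := by
            exact_mod_cast Nat.totient_pos.2 h5.1
          have h10 : (Nat.totient (F n).2 : ℝ) ≤ (F n).2 := by
            exact_mod_cast Nat.totient_le _
          have h11 : (n : ℝ) = ((F n).1 : ℝ) ^ 2 * (F n).2 := by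
            exact_mod_cast h3.symm
          rw [h11, div_mul_div_comm, one_mul]
          apply one_div_le_one_div_of_le (by positivity)
          exact mul_le_mul_of_nonneg_left h10 (by positivity)
      _ = ∑ x ∈ (Icc 1 R).image F, ((1 : ℝ) / (x.1 : ℝ) ^ 2 *
            (if Squarefree x.2 then (1 : ℝ) / Nat.totient x.2 else 0)) := by
          rw [Finset.sum_image hinj]
      _ ≤ _ := by
          refine Finset.sum_le_sum_of_subset_of_nonneg ?_ fun _ _ _ => by positivity
          intro x hx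
          obtain ⟨n, hn, rfl⟩ := Finset.mem_image.1 hx
          obtain ⟨h3, h4, h5, h6⟩ := hF n hn
          exact Finset.mem_product.2 ⟨h4, h5⟩
  have h3 : ∑ a ∈ Icc 1 R, (1 : ℝ) / (a : ℝ) ^ 2 ≤ 3 := by
    have h4 := sum_Ioo_inv_sq_le (α := ℝ) 0 (R + 1)
    have h5 : Ioo 0 (R + 1) = Icc 1 R := by
      ext a
      rw [Finset.mem_Ioo, Finset.mem_Icc]
      omega
    rw [h5] at h4
    calc ∑ a ∈ Icc 1 R, (1 : ℝ) / (a : ℝ) ^ 2 = ∑ a ∈ Icc 1 R, ((a : ℝ) ^ 2)⁻¹ := by
          refine Finset.sum_congr rfl fun a _ => by rw [one_div]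
      _ ≤ 2 / ((0 : ℕ) + 1 : ℝ) := h4
      _ ≤ 3 := by norm_num
  have hG := selG_pos hR
  have h4 : Real.log R ≤ 3 * selG R := by
    refine h1.trans (h2.trans ?_)
    exact mul_le_mul_of_nonneg_right h3 hG.le
  linarith

end

end Pool.Agent.H37.SFQ
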