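import Pool.Agent.H37.SFQ.Dual

/-!
The additive large sieve inequality, in dual and primal form.
-/

set_option autoImplicit false

open Finset ComplexConjugate

namespace Pool.Agent.H37.SFQ

/-- `e x = exp (2 π i x)` -/
noncomputable def e (x : ℝ) : ℂ := Complex.exp ((2 * Real.pi * x : ℝ) * Complex.I)

lemma norm_e (x : ℝ) : ‖e x‖ = 1 := Complex.norm_exp_ofReal_mul_I _

lemma e_add (x y : ℝ) : e (x + y) = e x * e y := by
  unfold e
  rw [← Complex.exp_add]
  congr 1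
  push_cast
  ring

lemma e_zero : e 0 = 1 := by simp [e]

lemma e_neg (x : ℝ) : e (-x) = conj (e x) := by
  unfold e
  rw [← Complex.exp_conj, map_mul, Complex.conj_ofReal, Complex.conj_I]
  congr 1
  push_cast
  ring

lemma e_int (k : ℤ) : e k = 1 := by
  unfold e
  rw [Complex.exp_eq_one_iff]
  exact ⟨k, by push_cast; ring⟩

lemma e_nat_mul (x : ℝ) (n : ℕ) : e (n * x) = e x ^ n := by
  unfold e
  rw [← Complex.exp_nat_mul]
  congr 1
  push_cast
  ring

/-- geometric sum -/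
noncomputable def geo (H : ℕ) (γ : ℝ) : ℂ := ∑ j ∈ range H, e (j * γ)

lemma norm_geo_le (H : ℕ) (γ : ℝ) : ‖geo H γ‖ ≤ H := by
  unfold geo
  refine (norm_sum_le _ _).trans ?_
  simp [norm_e]

lemma geo_mul (H : ℕ) (γ : ℝ) : ‖geo H γ‖ * ‖e γ - 1‖ ≤ 2 := by
  unfold geo
  rw [← norm_mul]
  simp_rw [e_nat_mul]
  rw [geom_sum_mul]
  refine (norm_sub_le _ _).trans ?_
  rw [norm_pow, norm_e, one_pow, norm_one]
  norm_num

/-- lower bound for `|e γ - 1|` -/
lemma e_sub_one_ge (γ : ℝ) : 4 * min (Int.fract γ) (1 - Int.fract γ) ≤ ‖e γ - 1‖ := by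
  have h1 : e γ = e (Int.fract γ) := by
    have : γ = Int.fract γ + (⌊γ⌋ : ℤ) := by rw [Int.fract]; ring
    conv_lhs => rw [this]
    rw [e_add, e_int, mul_one]
  rw [h1]
  set β := Int.fract γ with hβ
  have hβ0 : 0 ≤ β := Int.fract_nonneg γ
  have hβ1 : β < 1 := Int.fract_lt_one γ
  have h2 : ‖e β - 1‖ = 2 * |Real.sin (Real.pi * β)| := by
    unfold e
    rw [mul_comm ((2 * Real.pi * β : ℝ) : ℂ) Complex.I, Complex.norm_exp_I_mul_ofReal_sub_one]
    rw [Real.norm_eq_abs, abs_mul]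
    congr 1
    · norm_num
    · congr 2
      ring
  rw [h2]
  have key : ∀ t : ℝ, 0 ≤ t → t ≤ 1 / 2 → 2 * t ≤ Real.sin (Real.pi * t) := by
    intro t ht0 ht1
    have := Real.mul_le_sin (x := Real.pi * t) (by positivity) (by
      nlinarith [Real.pi_pos])
    have h3 : 2 / Real.pi * (Real.pi * t) = 2 * t := by
      field_simp
    linarith
  rcases le_total β (1 / 2) with h | h
  · have := key β hβ0 h
    have h4 : min β (1 - β) ≤ β := min_le_left _ _
    have := le_abs_self (Real.sin (Real.pi * β))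
    linarith
  · have h5 := key (1 - β) (by linarith) (by linarith)
    have h6 : Real.sin (Real.pi * (1 - β)) = Real.sin (Real.pi * β) := by
      rw [mul_sub, mul_one, Real.sin_pi_sub]
    rw [h6] at h5
    have h4 : min β (1 - β) ≤ 1 - β := min_le_right _ _
    have := le_abs_self (Real.sin (Real.pi * β))
    linarith

lemma geo_sq_le (H : ℕ) (γ : ℝ) (h0 : 0 < Int.fract γ) :
    ‖geo H γ‖ ^ 2 ≤ (1 / Int.fract γ ^ 2 + 1 / (1 - Int.fract γ) ^ 2) / 4 := by
  set β := Int.fract γ with hβ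
  have hβ1 : β < 1 := Int.fract_lt_one γ
  set m := min β (1 - β) with hm
  have hm0 : 0 < m := lt_min h0 (by linarith)
  have h1 := geo_mul H γ
  have h2 := e_sub_one_ge γ
  rw [← hβ, ← hm] at h2
  have h3 : ‖geo H γ‖ * (2 * m) ≤ 1 := by
    have := mul_le_mul_of_nonneg_left h2 (norm_nonneg (geo H γ))
    nlinarith
  have h4 : ‖geo H γ‖ ≤ 1 / (2 * m) := by
    rw [le_div_iff₀ (by positivity)]
    exact h3
  have h5 : ‖geo H γ‖ ^ 2 ≤ (1 / m ^ 2) / 4 := by
    calc ‖geo H γ‖ ^ 2 ≤ (1 / (2 * m)) ^ 2 := pow_le_pow_left₀ (norm_nonneg _) h4 2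
      _ = (1 / m ^ 2) / 4 := by field_simp; norm_num
  refine h5.trans ?_
  have h6 : 1 / m ^ 2 ≤ 1 / β ^ 2 + 1 / (1 - β) ^ 2 := by
    rcases min_choice β (1 - β) with h | h
    · rw [hm, h]
      have : 0 ≤ 1 / (1 - β) ^ 2 := by positivity
      linarith
    · rw [hm, h]
      have : 0 ≤ 1 / β ^ 2 := by positivity
      linarith
  linarith

variable {ι : Type*}

lemma sum_inv_sq (T : Finset ι) (β : ι → ℝ) {r : ℝ} (hr : 0 < r)
    (h1 : ∀ t ∈ T, 1 ≤ β t * r) (h2 : ∀ t ∈ T, ∀ t' ∈ T, t ≠ t' → 1 ≤ |β t - β t'| * r) :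
    ∑ t ∈ T, 1 / β t ^ 2 ≤ 2 * r ^ 2 := by
  classical
  set f : ι → ℕ := fun t => ⌊β t * r⌋₊ with hf
  have hf1 : ∀ t ∈ T, 1 ≤ f t := fun t ht => by
    rw [hf]
    exact Nat.le_floor (by exact_mod_cast h1 t ht)
  have hβ : ∀ t ∈ T, 0 < β t := fun t ht => by
    have := h1 t ht
    by_contra hc
    push Not at hc
    nlinarith
  have hinj : Set.InjOn f T := by
    intro t ht t' ht' hff
    by_contra hne
    have h3 := h2 t ht t' ht' hne
    have h4 : (f t : ℝ) ≤ β t * r := Nat.floor_le (by have := h1 t ht; linarith)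
    have h5 : β t * r < f t + 1 := Nat.lt_floor_add_one _
    have h6 : (f t' : ℝ) ≤ β t' * r := Nat.floor_le (by have := h1 t' ht'; linarith)
    have h7 : β t' * r < f t' + 1 := Nat.lt_floor_add_one _
    have h8 : (f t : ℝ) = f t' := by exact_mod_cast hff
    have h9 : |β t - β t'| * r = |β t * r - β t' * r| := by
      rw [← sub_mul, abs_mul, abs_of_pos hr]
    rw [h9] at h3
    have h10 : |β t * r - β t' * r| < 1 := by
      rw [abs_lt]
      constructor <;> linarith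
    linarith
  have h3 : ∀ t ∈ T, 1 / β t ^ 2 ≤ r ^ 2 * ((f t : ℝ) ^ 2)⁻¹ := by
    intro t ht
    have hb := hβ t ht
    have h4 : (f t : ℝ) ≤ β t * r := Nat.floor_le (by have := h1 t ht; linarith)
    have h5 : (1:ℝ) ≤ f t := by exact_mod_cast hf1 t ht
    rw [← div_eq_mul_inv, div_le_div_iff₀ (by positivity) (by positivity), one_mul]
    have := pow_le_pow_left₀ (by linarith) h4 2
    nlinarith
  refine (Finset.sum_le_sum h3).trans ?_
  rw [← Finset.mul_sum]
  have h4 : ∑ t ∈ T, ((f t : ℝ) ^ 2)⁻¹ = ∑ m ∈ T.image f, ((m : ℝ) ^ 2)⁻¹ := by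
    rw [Finset.sum_image hinj]
  rw [h4]
  set Mx := (T.image f).sup id + 1 with hMx
  have h5 : T.image f ⊆ Ioo 0 Mx := by
    intro m hm
    have h6 : m ≤ (T.image f).sup id := Finset.le_sup (f := id) hm
    obtain ⟨t, ht, rfl⟩ := Finset.mem_image.1 hm
    rw [Finset.mem_Ioo]
    have := hf1 t ht
    exact ⟨by omega, by omega⟩
  have h6 : ∑ m ∈ T.image f, ((m : ℝ) ^ 2)⁻¹ ≤ ∑ m ∈ Ioo 0 Mx, ((m : ℝ) ^ 2)⁻¹ :=
    Finset.sum_le_sum_of_subset_of_nonneg h5 fun _ _ _ => by positivity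
  have h7 := sum_Ioo_inv_sq_le (α := ℝ) 0 Mx
  have h8 : ∑ m ∈ T.image f, ((m : ℝ) ^ 2)⁻¹ ≤ 2 := by
    refine h6.trans (h7.trans ?_)
    norm_num
  nlinarith [sq_nonneg r]

/-- Additive large sieve, dual form. -/
theorem add_dual (T : Finset ι) (α : ι → ℝ) {R : ℕ} (hR : 1 ≤ R)
    (hsep : ∀ t ∈ T, ∀ t' ∈ T, t ≠ t' → ∀ k : ℤ, 1 ≤ |α t - α t' - k| * (R : ℝ) ^ 2)
    (M N : ℕ) (b : ι → ℂ) :
    ∑ n ∈ Ioc M (M + N), ‖∑ t ∈ T, b t * e (n * α t)‖ ^ 2 ≤
      5 * ((N : ℝ) + (R : ℝ) ^ 2) * ∑ t ∈ T, ‖b t‖ ^ 2 := by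
  classical
  set K : ℕ := N + R ^ 2 with hK
  have hK0 : 0 < K := by positivity
  set H : ℕ := 2 * K with hH
  set F : ℝ → ℝ := fun y => ‖∑ t ∈ T, b t * e (y * α t)‖ ^ 2 with hF
  have hF0 : ∀ y, 0 ≤ F y := fun y => by positivity
  -- Step 1: lower bound of the sum over pairs
  have h1 : (K : ℝ) * ∑ n ∈ Ioc M (M + N), F n ≤
      ∑ j ∈ range H ×ˢ range H, F ((M : ℝ) + j.1 - j.2) := by
    have h2 : (K : ℝ) * ∑ n ∈ Ioc M (M + N), F n =
        ∑ s ∈ Ioc M (M + N) ×ˢ range K, F (s.1 : ℝ) := by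
      rw [Finset.sum_product]
      simp [Finset.mul_sum]
    rw [h2]
    have hinj : Set.InjOn (fun s : ℕ × ℕ => (s.2 + (s.1 - M), s.2))
        ((Ioc M (M + N) ×ˢ range K : Finset (ℕ × ℕ)) : Set (ℕ × ℕ)) := by
      intro s hs s' hs' hss
      simp only [Prod.mk.injEq] at hss
      have hs1 := (Finset.mem_product.1 hs).1
      have hs1' := (Finset.mem_product.1 hs').1
      rw [Finset.mem_Ioc] at hs1 hs1'
      refine Prod.ext ?_ hss.2
      have := hss.1
      have := hss.2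
      omega
    have h3 : ∑ s ∈ Ioc M (M + N) ×ˢ range K, F (s.1 : ℝ) =
        ∑ j ∈ (Ioc M (M + N) ×ˢ range K).image (fun s : ℕ × ℕ => (s.2 + (s.1 - M), s.2)),
          F ((M : ℝ) + j.1 - j.2) := by
      rw [Finset.sum_image hinj]
      refine Finset.sum_congr rfl fun s hs => ?_
      have hs1 := (Finset.mem_product.1 hs).1
      rw [Finset.mem_Ioc] at hs1
      congr 1
      push_cast [Nat.cast_sub hs1.1.le]
      ring
    rw [h3]
    refine Finset.sum_le_sum_of_subset_of_nonneg ?_ fun _ _ _ => hF0 _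
    intro j hj
    obtain ⟨s, hs, rfl⟩ := Finset.mem_image.1 hj
    rw [Finset.mem_product, Finset.mem_Ioc, Finset.mem_range] at hs
    rw [Finset.mem_product, Finset.mem_range, Finset.mem_range]
    constructor
    · simp only
      have h4 : N ≤ K := by rw [hK]; exact Nat.le_add_right _ _
      omega
    · simp only
      omega
  -- Step 2: upper bound by the Schur test
  have hgram : ∀ t t' : ι, ∑ j ∈ range H ×ˢ range H, ((1 : ℝ) : ℂ) * e (((M : ℝ) + j.1 - j.2) * α t) *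
      conj (e (((M : ℝ) + j.1 - j.2) * α t')) =
      e (M * (α t - α t')) * (geo H (α t - α t') * conj (geo H (α t - α t'))) := by
    intro t t'
    unfold geo
    rw [map_sum, Finset.sum_mul_sum, Finset.mul_sum, Finset.sum_product]
    refine Finset.sum_congr rfl fun j _ => ?_
    rw [Finset.mul_sum]
    refine Finset.sum_congr rfl fun j' _ => ?_
    rw [← e_neg, ← e_neg, ← e_add, ← e_add, Complex.ofReal_one, one_mul, ← e_add]
    congr 1
    ring
  have h5 : ∀ t ∈ T, ∑ t' ∈ T, ‖∑ j ∈ range H ×ˢ range H,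
      ((1 : ℝ) : ℂ) * e (((M : ℝ) + j.1 - j.2) * α t) *
      conj (e (((M : ℝ) + j.1 - j.2) * α t'))‖ ≤ (H : ℝ) ^ 2 + (R : ℝ) ^ 4 := by
    intro t ht
    have h6 : ∀ t' : ι, ‖∑ j ∈ range H ×ˢ range H, ((1 : ℝ) : ℂ) * e (((M : ℝ) + j.1 - j.2) * α t) *
        conj (e (((M : ℝ) + j.1 - j.2) * α t'))‖ = ‖geo H (α t - α t')‖ ^ 2 := by
      intro t'
      rw [hgram, norm_mul, norm_e, one_mul, norm_mul, RCLike.norm_conj, sq]
    simp_rw [h6]
    rw [← Finset.add_sum_erase T _ ht]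
    refine add_le_add ?_ ?_
    · exact pow_le_pow_left₀ (norm_nonneg _) (norm_geo_le _ _) 2
    · set β : ι → ℝ := fun t' => Int.fract (α t - α t') with hβ
      have hR0 : (0:ℝ) < (R:ℝ) ^ 2 := by
        have : (1:ℝ) ≤ R := by exact_mod_cast hR
        positivity
      have hb : ∀ t' ∈ T.erase t, 1 ≤ β t' * (R:ℝ) ^ 2 := by
        intro t' ht'
        rw [Finset.mem_erase] at ht'
        have := hsep t ht t' ht'.2 (Ne.symm ht'.1) ⌊α t - α t'⌋
        have h7 : α t - α t' - (⌊α t - α t'⌋ : ℤ) = β t' := rfl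
        rw [h7, abs_of_nonneg (Int.fract_nonneg _)] at this
        exact this
      have hb' : ∀ t' ∈ T.erase t, 1 ≤ (1 - β t') * (R:ℝ) ^ 2 := by
        intro t' ht'
        rw [Finset.mem_erase] at ht'
        have := hsep t ht t' ht'.2 (Ne.symm ht'.1) (⌊α t - α t'⌋ + 1)
        have h7 : α t - α t' - ((⌊α t - α t'⌋ + 1 : ℤ) : ℝ) = -(1 - β t') := by
          simp only [hβ, Int.fract]
          push_cast
          ring
        rw [h7, abs_neg, abs_of_nonneg (by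
          have := Int.fract_lt_one (α t - α t')
          simp only [hβ]
          linarith)] at this
        exact this
      have hdiff : ∀ t' ∈ T.erase t, ∀ t'' ∈ T.erase t, t' ≠ t'' →
          1 ≤ |β t' - β t''| * (R:ℝ) ^ 2 := by
        intro t' ht' t'' ht'' hne
        rw [Finset.mem_erase] at ht' ht''
        have := hsep t' ht'.2 t'' ht''.2 hne (⌊α t - α t''⌋ - ⌊α t - α t'⌋)
        have h7 : α t' - α t'' - ((⌊α t - α t''⌋ - ⌊α t - α t'⌋ : ℤ) : ℝ) = -(β t' - β t'') := by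
          simp only [hβ, Int.fract]
          push_cast
          ring
        rw [h7, abs_neg] at this
        exact this
      have h8 := sum_inv_sq (T.erase t) β hR0 hb hdiff
      have h9 := sum_inv_sq (T.erase t) (fun t' => 1 - β t') hR0 hb' (by
        intro t' ht' t'' ht'' hne
        have := hdiff t' ht' t'' ht'' hne
        have h10 : 1 - β t' - (1 - β t'') = -(β t' - β t'') := by ring
        rw [h10, abs_neg]
        exact this)
      calc ∑ t' ∈ T.erase t, ‖geo H (α t - α t')‖ ^ 2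
          ≤ ∑ t' ∈ T.erase t, (1 / β t' ^ 2 + 1 / (1 - β t') ^ 2) / 4 := by
            refine Finset.sum_le_sum fun t' ht' => ?_
            refine geo_sq_le H _ ?_
            have := hb t' ht'
            by_contra hc
            push Not at hc
            have : β t' * (R:ℝ) ^ 2 ≤ 0 := mul_nonpos_of_nonpos_of_nonneg hc hR0.le
            linarith
        _ = ((∑ t' ∈ T.erase t, 1 / β t' ^ 2) + ∑ t' ∈ T.erase t, 1 / (1 - β t') ^ 2) / 4 := by
            rw [← Finset.sum_add_distrib, Finset.sum_div]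
        _ ≤ (2 * ((R:ℝ) ^ 2) ^ 2 + 2 * ((R:ℝ) ^ 2) ^ 2) / 4 := by
            have := add_le_add h8 h9
            linarith
        _ = (R:ℝ) ^ 4 := by ring
  have h10 := schur T (range H ×ˢ range H) (fun _ => 1)
    (fun t j => e (((M : ℝ) + j.1 - j.2) * α t)) h5 b
  have h11 : (K : ℝ) * ∑ n ∈ Ioc M (M + N), F n ≤
      ((H : ℝ) ^ 2 + (R : ℝ) ^ 4) * ∑ t ∈ T, ‖b t‖ ^ 2 := by
    refine h1.trans (le_trans (le_of_eq ?_) h10)
    refine Finset.sum_congr rfl fun j _ => ?_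
    rw [one_mul]
  have hKR : (K : ℝ) = N + (R : ℝ) ^ 2 := by rw [hK]; push_cast; ring
  have hHR : (H : ℝ) = 2 * K := by rw [hH]; push_cast; ring
  have hKpos : (0 : ℝ) < K := by exact_mod_cast hK0
  have hB : 0 ≤ ∑ t ∈ T, ‖b t‖ ^ 2 := Finset.sum_nonneg fun t _ => by positivity
  have h12 : (H : ℝ) ^ 2 + (R : ℝ) ^ 4 ≤ K * (5 * K) := by
    have h13 : (R : ℝ) ^ 2 ≤ K := by rw [hKR]; linarith [Nat.cast_nonneg (α := ℝ) N]
    have h14 : (R : ℝ) ^ 4 ≤ K ^ 2 := by
      have := pow_le_pow_left₀ (by positivity) h13 2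
      calc (R : ℝ) ^ 4 = ((R : ℝ) ^ 2) ^ 2 := by ring
        _ ≤ _ := this
    rw [hHR]
    nlinarith
  have h15 : (K : ℝ) * ∑ n ∈ Ioc M (M + N), F n ≤ K * ((5 * K) * ∑ t ∈ T, ‖b t‖ ^ 2) := by
    refine h11.trans ?_
    have := mul_le_mul_of_nonneg_right h12 hB
    linarith
  have h16 := le_of_mul_le_mul_left h15 hKpos
  rw [hKR] at h16
  exact h16

/-- Additive large sieve. -/
theorem add_large_sieve (T : Finset ι) (α : ι → ℝ) {R : ℕ} (hR : 1 ≤ R)
    (hsep : ∀ t ∈ T, ∀ t' ∈ T, t ≠ t' → ∀ k : ℤ, 1 ≤ |α t - α t' - k| * (R : ℝ) ^ 2)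
    (M N : ℕ) (a : ℕ → ℂ) :
    ∑ t ∈ T, ‖∑ n ∈ Ioc M (M + N), a n * e (n * α t)‖ ^ 2 ≤
      5 * ((N : ℝ) + (R : ℝ) ^ 2) * ∑ n ∈ Ioc M (M + N), ‖a n‖ ^ 2 :=
  duality T (Ioc M (M + N)) (fun t n => e (n * α t)) (by positivity)
    (fun b => add_dual T α hR hsep M N b) a

end Pool.Agent.H37.SFQ
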