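import Pool.Agent.H37.SFQ.Mult
import Pool.Agent.H37.SFQ.Selberg

/-!
Character sums over intervals, and the large sieve for primes with small moduli by duality
with the Selberg weights.
-/

set_option autoImplicit false

open Finset ComplexConjugate

namespace Pool.Agent.H37.SFQ

lemma sum_period {q : ℕ} [NeZero q] (f : ZMod q → ℂ) (a : ℕ) :
    ∑ n ∈ Ioc a (a + q), f n = ∑ c, f c := by
  classical
  have hq : 0 < q := Nat.pos_of_ne_zero (NeZero.ne q)
  have hinj : Set.InjOn (fun n : ℕ => (n : ZMod q)) (Ioc a (a + q) : Finset ℕ) := by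
    intro n hn m hm h
    rw [Finset.mem_coe, Finset.mem_Ioc] at hn hm
    have h1 : (n : ZMod q) = (m : ZMod q) := h
    rw [ZMod.natCast_eq_natCast_iff] at h1
    rcases le_total n m with h2 | h2
    · have h3 := (Nat.modEq_iff_dvd' h2).1 h1
      have h4 := Nat.eq_zero_of_dvd_of_lt h3 (by omega)
      omega
    · have h3 := (Nat.modEq_iff_dvd' h2).1 h1.symm
      have h4 := Nat.eq_zero_of_dvd_of_lt h3 (by omega)
      omega
  have h1 : (Ioc a (a + q)).image (fun n : ℕ => (n : ZMod q)) = Finset.univ := by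
    apply Finset.eq_univ_of_card
    rw [Finset.card_image_of_injOn hinj, Nat.card_Ioc, ZMod.card]
    omega
  rw [← h1, Finset.sum_image hinj]

lemma norm_sum_char_le {q : ℕ} [NeZero q] {χ : DirichletCharacter ℂ q} (hχ : χ ≠ 1) (k a : ℕ) :
    ‖∑ n ∈ Ioc a (a + k), χ n‖ ≤ q := by
  induction k using Nat.strong_induction_on generalizing a with
  | _ k ih =>
    have hq : 0 < q := Nat.pos_of_ne_zero (NeZero.ne q)
    rcases le_total k q with h | h
    · refine (norm_sum_le _ _).trans ?_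
      calc ∑ n ∈ Ioc a (a + k), ‖χ n‖ ≤ ∑ n ∈ Ioc a (a + k), (1 : ℝ) :=
            Finset.sum_le_sum fun n _ => χ.norm_le_one _
        _ = k := by rw [Finset.sum_const, Nat.card_Ioc]; simp
        _ ≤ q := by exact_mod_cast h
    · have h1 : Ioc a (a + k) = Ioc a (a + q) ∪ Ioc (a + q) (a + q + (k - q)) := by
        rw [Finset.Ioc_union_Ioc_eq_Ioc (by omega) (by omega)]
        congr 1
        omega
      have h2 : Disjoint (Ioc a (a + q)) (Ioc (a + q) (a + q + (k - q))) := by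
        rw [Finset.disjoint_left]
        intro n h3 h4
        rw [Finset.mem_Ioc] at h3 h4
        omega
      rw [h1, Finset.sum_union h2, sum_period (fun c => χ c) a, MulChar.sum_eq_zero_of_ne_one hχ,
        zero_add]
      exact ih (k - q) (by omega) (a + q)

lemma changeLevel_nat {n m : ℕ} (h : n ∣ m) (χ : DirichletCharacter ℂ n) (a : ℕ) :
    DirichletCharacter.changeLevel h χ (a : ZMod m) = if a.Coprime m then χ a else 0 := by
  by_cases hc : a.Coprime m
  · rw [if_pos hc]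
    have := DirichletCharacter.changeLevel_eq_cast_of_dvd' χ h (a := (a : ℤ))
      (Nat.isCoprime_iff_coprime.2 hc)
    simpa using this
  · rw [if_neg hc, MulChar.map_nonunit]
    rw [ZMod.isUnit_iff_coprime]
    exact hc

lemma char_nat_eq_zero {n : ℕ} (χ : DirichletCharacter ℂ n) {a : ℕ} (h : ¬ a.Coprime n) :
    χ (a : ZMod n) = 0 := by
  rw [MulChar.map_nonunit]
  rw [ZMod.isUnit_iff_coprime]
  exact h

/-- sums over the multiples of `l` -/
lemma norm_sum_char_dvd_le {q : ℕ} [NeZero q] {χ : DirichletCharacter ℂ q} (hχ : χ ≠ 1)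
    {l : ℕ} (hl : 0 < l) (M N : ℕ) :
    ‖∑ n ∈ (Ioc M (M + N)).filter (fun n => l ∣ n), χ n‖ ≤ q := by
  classical
  have h1 : (Ioc M (M + N)).filter (fun n => l ∣ n) =
      (Ioc (M / l) ((M + N) / l)).image (fun m => l * m) := by
    ext n
    rw [Finset.mem_filter, Finset.mem_Ioc, Finset.mem_image]
    constructor
    · rintro ⟨⟨h2, h3⟩, m, rfl⟩
      refine ⟨m, ?_, rfl⟩
      rw [Finset.mem_Ioc, Nat.div_lt_iff_lt_mul hl, Nat.le_div_iff_mul_le hl]
      constructor
      · rwa [mul_comm]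
      · rwa [mul_comm]
    · rintro ⟨m, hm, rfl⟩
      rw [Finset.mem_Ioc, Nat.div_lt_iff_lt_mul hl, Nat.le_div_iff_mul_le hl] at hm
      refine ⟨⟨?_, ?_⟩, ⟨m, rfl⟩⟩
      · rw [mul_comm]; exact hm.1
      · rw [mul_comm]; exact hm.2
  rw [h1, Finset.sum_image (fun a _ b _ h => Nat.eq_of_mul_eq_mul_left hl h)]
  have h2 : ∀ m ∈ Ioc (M / l) ((M + N) / l), χ ((l * m : ℕ) : ZMod q) = χ l * χ m := by
    intro m _
    push_cast
    rw [map_mul]
  rw [Finset.sum_congr rfl h2, ← Finset.mul_sum, norm_mul]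
  have h3 : (M + N) / l = M / l + ((M + N) / l - M / l) := by
    have := Nat.div_le_div_right (c := l) (Nat.le_add_right M N)
    omega
  rw [h3]
  have h4 := norm_sum_char_le hχ ((M + N) / l - M / l) (M / l)
  have h5 := χ.norm_le_one (l : ZMod q)
  calc ‖χ (l : ZMod q)‖ * _ ≤ 1 * (q : ℝ) :=
        mul_le_mul h5 h4 (norm_nonneg _) (by norm_num)
    _ = q := one_mul _

/-- index type of all Dirichlet characters -/
abbrev AllChar := Σ d : ℕ, DirichletCharacter ℂ d

/-- the index set of primitive characters with conductor at most `D` -/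
noncomputable def primSet (D : ℕ) : Finset AllChar := (Icc 1 D).sigma prims

/-- character value at a natural number -/
noncomputable def ev (t : AllChar) (n : ℕ) : ℂ := t.2 (n : ZMod t.1)

lemma norm_ev_le (t : AllChar) (n : ℕ) : ‖ev t n‖ ≤ 1 := t.2.norm_le_one _

lemma pair_bound {D : ℕ} {t t' : AllChar} (ht : t ∈ primSet D) (ht' : t' ∈ primSet D)
    (hne : t ≠ t') {l : ℕ} (hl : 0 < l) (M N : ℕ) :
    ‖∑ n ∈ (Ioc M (M + N)).filter (fun n => l ∣ n), ev t n * conj (ev t' n)‖ ≤ (D : ℝ) ^ 2 := by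
  obtain ⟨d, ψ⟩ := t
  obtain ⟨d', ψ'⟩ := t'
  rw [primSet, Finset.mem_sigma, mem_prims, Finset.mem_Icc] at ht ht'
  simp only at ht ht'
  have hd : 0 < d := by omega
  have hd' : 0 < d' := by omega
  have : NeZero (d * d') := ⟨by positivity⟩
  set χ : DirichletCharacter ℂ (d * d') :=
    DirichletCharacter.changeLevel (Dvd.intro d' rfl) ψ *
      (DirichletCharacter.changeLevel (Dvd.intro_left d rfl) ψ')⁻¹ with hχ
  have hne1 : χ ≠ 1 := by
    intro h1
    have h2 : DirichletCharacter.changeLevel (Dvd.intro d' rfl) ψ =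
      DirichletCharacter.changeLevel (Dvd.intro_left d rfl) ψ' := by
      rw [hχ] at h1
      exact mul_inv_eq_one.1 h1
    have h3 : d = d' := by
      have h4 := congrArg DirichletCharacter.conductor h2
      rw [DirichletCharacter.conductor_changeLevel, DirichletCharacter.conductor_changeLevel,
        (ψ.isPrimitive_def).1 ht.2, (ψ'.isPrimitive_def).1 ht'.2] at h4
      exact h4
    subst h3
    have h5 := DirichletCharacter.changeLevel_injective (R := ℂ) (Dvd.intro d rfl) h2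
    apply hne
    rw [h5]
  have hval : ∀ n : ℕ, ev ⟨d, ψ⟩ n * conj (ev ⟨d', ψ'⟩ n) = χ n := by
    intro n
    unfold ev
    simp only
    rw [hχ, MulChar.mul_apply, ← conj_char, changeLevel_nat, changeLevel_nat]
    by_cases hc : n.Coprime (d * d')
    · rw [if_pos hc, if_pos hc]
    · rw [if_neg hc, zero_mul]
      rw [Nat.coprime_mul_iff_right, not_and_or] at hc
      rcases hc with hc | hc
      · rw [char_nat_eq_zero ψ hc, zero_mul]
      · rw [char_nat_eq_zero ψ' hc, map_zero, mul_zero]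
  have h6 : ∑ n ∈ (Ioc M (M + N)).filter (fun n => l ∣ n), ev ⟨d, ψ⟩ n * conj (ev ⟨d', ψ'⟩ n) =
      ∑ n ∈ (Ioc M (M + N)).filter (fun n => l ∣ n), χ n :=
    Finset.sum_congr rfl fun n _ => hval n
  rw [h6]
  refine (norm_sum_char_dvd_le hne1 hl M N).trans ?_
  have h7 : (d : ℝ) ≤ D := by exact_mod_cast ht.1.2
  have h8 : (d' : ℝ) ≤ D := by exact_mod_cast ht'.1.2
  push_cast
  have : (0 : ℝ) ≤ d := by positivity
  have : (0 : ℝ) ≤ d' := by positivity
  nlinarith

lemma card_primSet_le (D : ℕ) : ((primSet D).card : ℝ) ≤ (D : ℝ) ^ 2 := by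
  rw [primSet, Finset.card_sigma]
  have h1 : ∀ d ∈ Icc 1 D, (prims d).card ≤ D := by
    intro d hd
    rw [Finset.mem_Icc] at hd
    have : NeZero d := ⟨by omega⟩
    refine (Finset.card_le_univ _).trans ?_
    rw [← Nat.card_eq_fintype_card, DirichletCharacter.card_eq_totient_of_hasEnoughRootsOfUnity]
    exact (Nat.totient_le d).trans hd.2
  have h2 := Finset.sum_le_sum h1
  rw [Finset.sum_const, Nat.card_Icc, smul_eq_mul] at h2
  have h3 : ((∑ d ∈ Icc 1 D, (prims d).card : ℕ) : ℝ) ≤ ((D + 1 - 1) * D : ℕ) := by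
    exact_mod_cast h2
  refine h3.trans (le_of_eq ?_)
  rw [Nat.add_sub_cancel]
  push_cast
  ring

/-- the Selberg majorant -/
noncomputable def maj (R n : ℕ) : ℝ := (∑ e ∈ Icc 1 R, if e ∣ n then selL R e else 0) ^ 2

lemma maj_nonneg (R n : ℕ) : 0 ≤ maj R n := sq_nonneg _

lemma maj_prime {R p : ℕ} (hR : 1 ≤ R) (hp : p.Prime) (hpR : R < p) : maj R p = 1 := by
  unfold maj
  rw [Finset.sum_eq_single 1]
  · simp [selL_one hR]
  · intro e he he1
    rw [Finset.mem_Icc] at he
    rw [if_neg]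
    intro h
    rcases (Nat.dvd_prime hp).1 h with h1 | h1
    · exact he1 h1
    · omega
  · intro h
    exact absurd (Finset.mem_Icc.2 ⟨le_refl 1, hR⟩) h

lemma maj_eq (R n : ℕ) : maj R n =
    ∑ a ∈ Icc 1 R, ∑ b ∈ Icc 1 R, selL R a * selL R b * (if Nat.lcm a b ∣ n then 1 else 0) := by
  unfold maj
  rw [sq, Finset.sum_mul_sum]
  refine Finset.sum_congr rfl fun a _ => Finset.sum_congr rfl fun b _ => ?_
  by_cases h1 : a ∣ n
  · by_cases h2 : b ∣ n
    · rw [if_pos h1, if_pos h2, if_pos (Nat.lcm_dvd h1 h2), mul_one]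
    · rw [if_neg h2, if_neg (fun hc => h2 ((Nat.dvd_lcm_right a b).trans hc)), mul_zero, mul_zero]
  · rw [if_neg h1, if_neg (fun hc => h1 ((Nat.dvd_lcm_left a b).trans hc)), mul_zero, zero_mul]

lemma card_dvd {l : ℕ} (hl : 0 < l) (M N : ℕ) :
    |(((Ioc M (M + N)).filter (fun n => l ∣ n)).card : ℝ) - N / l| ≤ 1 := by
  have h1 : ((Ioc M (M + N)).filter (fun n => l ∣ n)).card = (M + N) / l - M / l := by
    have h2 := Nat.Ioc_filter_dvd_card_eq_div (M + N) l
    have h3 := Nat.Ioc_filter_dvd_card_eq_div M l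
    have h4 : (Ioc 0 (M + N)).filter (fun n => l ∣ n) =
        (Ioc 0 M).filter (fun n => l ∣ n) ∪ (Ioc M (M + N)).filter (fun n => l ∣ n) := by
      rw [← Finset.filter_union, Finset.Ioc_union_Ioc_eq_Ioc (by omega) (by omega)]
    have h5 : Disjoint ((Ioc 0 M).filter (fun n => l ∣ n))
        ((Ioc M (M + N)).filter (fun n => l ∣ n)) := by
      rw [Finset.disjoint_left]
      intro n h6 h7
      rw [Finset.mem_filter, Finset.mem_Ioc] at h6 h7
      omega
    rw [h4, Finset.card_union_of_disjoint h5] at h2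
    omega
  have h2 : M / l ≤ (M + N) / l := Nat.div_le_div_right (Nat.le_add_right M N)
  rw [h1, Nat.cast_sub h2]
  have hl' : (0 : ℝ) < l := by exact_mod_cast hl
  have h3 := Nat.lt_floor_add_one ((M : ℝ) / l)
  have h4 := Nat.lt_floor_add_one (((M + N : ℕ) : ℝ) / l)
  have h5 : ((M / l : ℕ) : ℝ) ≤ (M : ℝ) / l := Nat.cast_div_le
  have h6 : (((M + N) / l : ℕ) : ℝ) ≤ ((M + N : ℕ) : ℝ) / l := Nat.cast_div_le
  rw [Nat.floor_div_eq_div] at h3 h4
  have h7 : (((M + N : ℕ) : ℝ)) / l = (M : ℝ) / l + (N : ℝ) / l := by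
    push_cast
    rw [add_div]
  rw [h7] at h4 h6
  rw [abs_le]
  constructor <;> linarith

lemma sum_abs_selL {R : ℕ} (hR : 1 ≤ R) :
    ∑ a ∈ Icc 1 R, ∑ b ∈ Icc 1 R, |selL R a * selL R b| ≤ (R : ℝ) ^ 4 := by
  have h1 : ∀ a ∈ Icc 1 R, ∀ b ∈ Icc 1 R, |selL R a * selL R b| ≤ (R : ℝ) * R := by
    intro a ha b hb
    rw [Finset.mem_Icc] at ha hb
    rw [abs_mul]
    have h2 : (a : ℝ) ≤ R := by exact_mod_cast ha.2
    have h3 : (b : ℝ) ≤ R := by exact_mod_cast hb.2
    exact mul_le_mul ((abs_selL_le hR a).trans h2) ((abs_selL_le hR b).trans h3) (abs_nonneg _)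
      (by positivity)
  refine (Finset.sum_le_sum fun a ha => Finset.sum_le_sum fun b hb => h1 a ha b hb).trans ?_
  rw [Finset.sum_const, Finset.sum_const, Nat.card_Icc, Nat.add_sub_cancel]
  simp only [nsmul_eq_mul]
  refine le_of_eq ?_
  ring

/-- The large sieve for primes (small moduli), dual form. -/
theorem primes_dual {R D M N : ℕ} (hR : 1 ≤ R) (hRM : R ≤ M) (b : AllChar → ℂ) :
    ∑ n ∈ (Ioc M (M + N)).filter Nat.Prime, ‖∑ t ∈ primSet D, b t * ev t n‖ ^ 2 ≤
      ((N : ℝ) / selG R + (R : ℝ) ^ 4 + (D : ℝ) ^ 2 * ((R : ℝ) ^ 4 * (D : ℝ) ^ 2)) *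
        ∑ t ∈ primSet D, ‖b t‖ ^ 2 := by
  classical
  have h1 : ∑ n ∈ (Ioc M (M + N)).filter Nat.Prime, ‖∑ t ∈ primSet D, b t * ev t n‖ ^ 2 ≤
      ∑ n ∈ Ioc M (M + N), maj R n * ‖∑ t ∈ primSet D, b t * ev t n‖ ^ 2 := by
    rw [Finset.sum_filter]
    refine Finset.sum_le_sum fun n hn => ?_
    rw [Finset.mem_Ioc] at hn
    split_ifs with hp
    · rw [maj_prime hR hp (by omega), one_mul]
    · exact mul_nonneg (maj_nonneg R n) (by positivity)
  refine h1.trans (schur (primSet D) (Ioc M (M + N)) (maj R) ev ?_ b)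
  intro t ht
  -- expansion of the weighted inner products
  have hexp : ∀ f : ℕ → ℂ, ∑ n ∈ Ioc M (M + N), (maj R n : ℂ) * f n =
      ∑ a ∈ Icc 1 R, ∑ b ∈ Icc 1 R, ((selL R a * selL R b : ℝ) : ℂ) *
        ∑ n ∈ (Ioc M (M + N)).filter (fun n => Nat.lcm a b ∣ n), f n := by
    intro f
    have h2 : ∀ n ∈ Ioc M (M + N), (maj R n : ℂ) * f n =
        ∑ a ∈ Icc 1 R, ∑ b ∈ Icc 1 R, ((selL R a * selL R b : ℝ) : ℂ) *
          (if Nat.lcm a b ∣ n then f n else 0) := by
      intro n _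
      rw [maj_eq, Complex.ofReal_sum, Finset.sum_mul]
      refine Finset.sum_congr rfl fun a _ => ?_
      rw [Complex.ofReal_sum, Finset.sum_mul]
      refine Finset.sum_congr rfl fun b _ => ?_
      split_ifs <;> simp
    rw [Finset.sum_congr rfl h2, Finset.sum_comm]
    refine Finset.sum_congr rfl fun a _ => ?_
    rw [Finset.sum_comm]
    refine Finset.sum_congr rfl fun b _ => ?_
    rw [← Finset.mul_sum, ← Finset.sum_filter]
  rw [← Finset.add_sum_erase _ _ ht]
  have hdiag : ‖∑ n ∈ Ioc M (M + N), (maj R n : ℂ) * ev t n * conj (ev t n)‖ ≤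
      (N : ℝ) / selG R + (R : ℝ) ^ 4 := by
    have h2 : ‖∑ n ∈ Ioc M (M + N), (maj R n : ℂ) * ev t n * conj (ev t n)‖ ≤
        ∑ n ∈ Ioc M (M + N), maj R n := by
      refine (norm_sum_le _ _).trans (Finset.sum_le_sum fun n _ => ?_)
      rw [norm_mul, norm_mul, RCLike.norm_conj, Complex.norm_real, Real.norm_eq_abs,
        abs_of_nonneg (maj_nonneg R n)]
      have h3 := norm_ev_le t n
      have h4 := maj_nonneg R n
      have h5 := norm_nonneg (ev t n)
      calc maj R n * ‖ev t n‖ * ‖ev t n‖ = maj R n * (‖ev t n‖ * ‖ev t n‖) := by ring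
        _ ≤ maj R n * (1 * 1) := by
            refine mul_le_mul_of_nonneg_left ?_ h4
            exact mul_le_mul h3 h3 h5 (by norm_num)
        _ = maj R n := by ring
    refine h2.trans ?_
    have h3 : ∑ n ∈ Ioc M (M + N), maj R n = ∑ a ∈ Icc 1 R, ∑ b ∈ Icc 1 R, selL R a * selL R b *
        (((Ioc M (M + N)).filter (fun n => Nat.lcm a b ∣ n)).card : ℝ) := by
      simp_rw [maj_eq]
      rw [Finset.sum_comm]
      refine Finset.sum_congr rfl fun a _ => ?_
      rw [Finset.sum_comm]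
      refine Finset.sum_congr rfl fun b _ => ?_
      rw [← Finset.mul_sum, Finset.sum_boole]
    rw [h3]
    have h4 : ∀ a ∈ Icc 1 R, ∀ b ∈ Icc 1 R, selL R a * selL R b *
        (((Ioc M (M + N)).filter (fun n => Nat.lcm a b ∣ n)).card : ℝ) ≤
        N * (selL R a * selL R b / (Nat.lcm a b : ℝ)) + |selL R a * selL R b| := by
      intro a ha b hb
      rw [Finset.mem_Icc] at ha hb
      have hl : 0 < Nat.lcm a b := Nat.lcm_pos (by omega) (by omega)
      have h5 := card_dvd hl M N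
      set c : ℝ := (((Ioc M (M + N)).filter (fun n => Nat.lcm a b ∣ n)).card : ℝ) with hc
      set w : ℝ := selL R a * selL R b with hw
      have h6 : w * (c - N / (Nat.lcm a b : ℝ)) ≤ |w| * 1 := by
        refine (le_abs_self _).trans ?_
        rw [abs_mul]
        exact mul_le_mul_of_nonneg_left h5 (abs_nonneg _)
      have h7 : w * c = w * (c - N / (Nat.lcm a b : ℝ)) + N * (w / (Nat.lcm a b : ℝ)) := by
        ring
      rw [h7]
      linarith
    refine (Finset.sum_le_sum fun a ha => Finset.sum_le_sum fun b hb => h4 a ha b hb).trans ?_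
    simp_rw [Finset.sum_add_distrib, ← Finset.mul_sum]
    rw [selL_quad hR, mul_one_div]
    have := sum_abs_selL hR
    linarith
  have hoff : ∑ t' ∈ (primSet D).erase t,
      ‖∑ n ∈ Ioc M (M + N), (maj R n : ℂ) * ev t n * conj (ev t' n)‖ ≤
      (D : ℝ) ^ 2 * ((R : ℝ) ^ 4 * (D : ℝ) ^ 2) := by
    have h2 : ∀ t' ∈ (primSet D).erase t,
        ‖∑ n ∈ Ioc M (M + N), (maj R n : ℂ) * ev t n * conj (ev t' n)‖ ≤
        (R : ℝ) ^ 4 * (D : ℝ) ^ 2 := by
      intro t' ht'
      rw [Finset.mem_erase] at ht'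
      have h3 : ∑ n ∈ Ioc M (M + N), (maj R n : ℂ) * ev t n * conj (ev t' n) =
          ∑ n ∈ Ioc M (M + N), (maj R n : ℂ) * (ev t n * conj (ev t' n)) :=
        Finset.sum_congr rfl fun n _ => by ring
      rw [h3, hexp]
      have h4 : ∀ a ∈ Icc 1 R, ∀ b ∈ Icc 1 R, ‖((selL R a * selL R b : ℝ) : ℂ) *
          ∑ n ∈ (Ioc M (M + N)).filter (fun n => Nat.lcm a b ∣ n), ev t n * conj (ev t' n)‖ ≤
          |selL R a * selL R b| * (D : ℝ) ^ 2 := by
        intro a ha b hb
        rw [Finset.mem_Icc] at ha hb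
        have hl : 0 < Nat.lcm a b := Nat.lcm_pos (by omega) (by omega)
        rw [norm_mul, Complex.norm_real, Real.norm_eq_abs]
        exact mul_le_mul_of_nonneg_left (pair_bound ht ht'.2 (Ne.symm ht'.1) hl M N) (abs_nonneg _)
      refine (norm_sum_le _ _).trans ?_
      refine (Finset.sum_le_sum fun a ha => (norm_sum_le _ _).trans
        (Finset.sum_le_sum fun b hb => h4 a ha b hb)).trans ?_
      simp_rw [← Finset.sum_mul]
      exact mul_le_mul_of_nonneg_right (sum_abs_selL hR) (by positivity)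
    refine (Finset.sum_le_sum h2).trans ?_
    rw [Finset.sum_const, nsmul_eq_mul]
    refine mul_le_mul_of_nonneg_right ?_ (by positivity)
    refine le_trans ?_ (card_primSet_le D)
    exact_mod_cast Finset.card_le_card (Finset.erase_subset _ _)
  linarith

/-- The large sieve for primes (small moduli). -/
theorem primes_large_sieve {R D M N : ℕ} (hR : 1 ≤ R) (hRM : R ≤ M) (a : ℕ → ℂ) :
    ∑ t ∈ primSet D, ‖∑ n ∈ (Ioc M (M + N)).filter Nat.Prime, a n * ev t n‖ ^ 2 ≤
      ((N : ℝ) / selG R + (R : ℝ) ^ 4 + (D : ℝ) ^ 2 * ((R : ℝ) ^ 4 * (D : ℝ) ^ 2)) *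
        ∑ n ∈ (Ioc M (M + N)).filter Nat.Prime, ‖a n‖ ^ 2 := by
  refine duality (primSet D) _ ev ?_ (fun b => primes_dual hR hRM b) a
  have := selG_pos hR
  positivity

end Pool.Agent.H37.SFQ
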