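import Mathlib

/-!
Duality principle and the Schur test for finite families of complex functions.
-/

set_option autoImplicit false

open Finset ComplexConjugate

namespace Pool.Agent.H37.SFQ

variable {ι κ : Type*}

/-- Duality principle. -/
theorem duality (T : Finset ι) (S : Finset κ) (x : ι → κ → ℂ) {Δ : ℝ} (hΔ : 0 ≤ Δ)
    (h : ∀ b : ι → ℂ, ∑ n ∈ S, ‖∑ t ∈ T, b t * x t n‖ ^ 2 ≤ Δ * ∑ t ∈ T, ‖b t‖ ^ 2)
    (a : κ → ℂ) :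
    ∑ t ∈ T, ‖∑ n ∈ S, a n * x t n‖ ^ 2 ≤ Δ * ∑ n ∈ S, ‖a n‖ ^ 2 := by
  set s : ι → ℂ := fun t => ∑ n ∈ S, a n * x t n with hs
  set V : ℝ := ∑ t ∈ T, ‖s t‖ ^ 2 with hV
  have hV0 : 0 ≤ V := Finset.sum_nonneg fun t _ => by positivity
  have h1 : (V : ℂ) = ∑ n ∈ S, a n * ∑ t ∈ T, conj (s t) * x t n := by
    have h2 : (V : ℂ) = ∑ t ∈ T, conj (s t) * s t := by
      rw [hV]
      push_cast
      refine Finset.sum_congr rfl fun t _ => ?_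
      rw [mul_comm, Complex.mul_conj']
    rw [h2]
    simp_rw [hs, Finset.mul_sum]
    rw [Finset.sum_comm]
    refine Finset.sum_congr rfl fun n _ => Finset.sum_congr rfl fun t _ => ?_
    ring
  have h3 : V ≤ ∑ n ∈ S, ‖a n‖ * ‖∑ t ∈ T, conj (s t) * x t n‖ := by
    have h4 : V = ‖(V : ℂ)‖ := by
      rw [Complex.norm_real, Real.norm_eq_abs, abs_of_nonneg hV0]
    rw [h4, h1]
    refine (norm_sum_le _ _).trans (le_of_eq ?_)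
    refine Finset.sum_congr rfl fun n _ => by rw [norm_mul]
  have h5 : V ^ 2 ≤ (∑ n ∈ S, ‖a n‖ ^ 2) * ∑ n ∈ S, ‖∑ t ∈ T, conj (s t) * x t n‖ ^ 2 := by
    refine le_trans ?_ (Finset.sum_mul_sq_le_sq_mul_sq S _ _)
    exact pow_le_pow_left₀ hV0 h3 2
  have h6 := h (fun t => conj (s t))
  have h7 : ∑ t ∈ T, ‖conj (s t)‖ ^ 2 = V := by
    rw [hV]
    refine Finset.sum_congr rfl fun t _ => by rw [RCLike.norm_conj]
  rw [h7] at h6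
  have hA : 0 ≤ ∑ n ∈ S, ‖a n‖ ^ 2 := Finset.sum_nonneg fun t _ => by positivity
  have h8 : V * V ≤ (Δ * ∑ n ∈ S, ‖a n‖ ^ 2) * V := by
    calc V * V = V ^ 2 := by ring
      _ ≤ (∑ n ∈ S, ‖a n‖ ^ 2) * (Δ * V) := h5.trans (mul_le_mul_of_nonneg_left h6 hA)
      _ = (Δ * ∑ n ∈ S, ‖a n‖ ^ 2) * V := by ring
  rcases hV0.eq_or_lt with h0 | h0
  · rw [← h0]
    exact mul_nonneg hΔ hA
  · exact le_of_mul_le_mul_right h8 h0

/-- Expansion of a weighted mean square. -/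
theorem expand (T : Finset ι) (S : Finset κ) (w : κ → ℝ) (x : ι → κ → ℂ) (b : ι → ℂ) :
    ((∑ n ∈ S, w n * ‖∑ t ∈ T, b t * x t n‖ ^ 2 : ℝ) : ℂ) =
      ∑ t ∈ T, ∑ t' ∈ T, b t * conj (b t') * ∑ n ∈ S, (w n : ℂ) * x t n * conj (x t' n) := by
  push_cast
  have h1 : ∀ n ∈ S, (w n : ℂ) * (‖∑ t ∈ T, b t * x t n‖ : ℂ) ^ 2 =
      ∑ t ∈ T, ∑ t' ∈ T, b t * conj (b t') * ((w n : ℂ) * x t n * conj (x t' n)) := by
    intro n _
    rw [← Complex.mul_conj', map_sum, Finset.sum_mul_sum, Finset.mul_sum]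
    refine Finset.sum_congr rfl fun t _ => ?_
    rw [Finset.mul_sum]
    refine Finset.sum_congr rfl fun t' _ => ?_
    rw [map_mul]
    ring
  rw [Finset.sum_congr rfl h1, Finset.sum_comm]
  refine Finset.sum_congr rfl fun t _ => ?_
  rw [Finset.sum_comm]
  refine Finset.sum_congr rfl fun t' _ => ?_
  rw [Finset.mul_sum]

/-- The Schur test. -/
theorem schur (T : Finset ι) (S : Finset κ) (w : κ → ℝ) (x : ι → κ → ℂ) {Δ : ℝ}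
    (h : ∀ t ∈ T, ∑ t' ∈ T, ‖∑ n ∈ S, (w n : ℂ) * x t n * conj (x t' n)‖ ≤ Δ) (b : ι → ℂ) :
    ∑ n ∈ S, w n * ‖∑ t ∈ T, b t * x t n‖ ^ 2 ≤ Δ * ∑ t ∈ T, ‖b t‖ ^ 2 := by
  set g : ι → ι → ℝ := fun t t' => ‖∑ n ∈ S, (w n : ℂ) * x t n * conj (x t' n)‖ with hg
  have hsymm : ∀ t t', g t t' = g t' t := by
    intro t t'
    simp only [hg]
    rw [← RCLike.norm_conj, map_sum]
    congr 1
    refine Finset.sum_congr rfl fun n _ => ?_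
    simp only [map_mul, Complex.conj_conj, Complex.conj_ofReal]
    ring
  have h1 : ∑ n ∈ S, w n * ‖∑ t ∈ T, b t * x t n‖ ^ 2 ≤
      ∑ t ∈ T, ∑ t' ∈ T, ‖b t‖ * ‖b t'‖ * g t t' := by
    have h2 := expand T S w x b
    have h3 : ∑ n ∈ S, w n * ‖∑ t ∈ T, b t * x t n‖ ^ 2 ≤
        ‖((∑ n ∈ S, w n * ‖∑ t ∈ T, b t * x t n‖ ^ 2 : ℝ) : ℂ)‖ := by
      rw [Complex.norm_real]
      exact le_abs_self _
    refine h3.trans ?_
    rw [h2]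
    refine (norm_sum_le _ _).trans (Finset.sum_le_sum fun t _ => ?_)
    refine (norm_sum_le _ _).trans (Finset.sum_le_sum fun t' _ => le_of_eq ?_)
    rw [norm_mul, norm_mul, RCLike.norm_conj]
  have h4 : ∑ t ∈ T, ∑ t' ∈ T, ‖b t‖ * ‖b t'‖ * g t t' ≤
      ∑ t ∈ T, ∑ t' ∈ T, (‖b t‖ ^ 2 * g t t' + ‖b t'‖ ^ 2 * g t t') / 2 := by
    refine Finset.sum_le_sum fun t _ => Finset.sum_le_sum fun t' _ => ?_
    have hg0 : 0 ≤ g t t' := norm_nonneg _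
    nlinarith [mul_nonneg (sq_nonneg (‖b t‖ - ‖b t'‖)) hg0]
  have h5 : ∑ t ∈ T, ∑ t' ∈ T, (‖b t‖ ^ 2 * g t t' + ‖b t'‖ ^ 2 * g t t') / 2 =
      ∑ t ∈ T, ‖b t‖ ^ 2 * ∑ t' ∈ T, g t t' := by
    have h6 : ∑ t ∈ T, ∑ t' ∈ T, ‖b t'‖ ^ 2 * g t t' = ∑ t ∈ T, ∑ t' ∈ T, ‖b t‖ ^ 2 * g t t' := by
      rw [Finset.sum_comm]
      refine Finset.sum_congr rfl fun t _ => Finset.sum_congr rfl fun t' _ => ?_
      rw [hsymm]
    simp_rw [← Finset.sum_div, Finset.sum_add_distrib]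
    rw [h6]
    simp_rw [Finset.mul_sum]
    ring
  have h7 : ∑ t ∈ T, ‖b t‖ ^ 2 * ∑ t' ∈ T, g t t' ≤ ∑ t ∈ T, ‖b t‖ ^ 2 * Δ := by
    refine Finset.sum_le_sum fun t ht => ?_
    exact mul_le_mul_of_nonneg_left (h t ht) (by positivity)
  rw [← Finset.sum_mul, mul_comm] at h7
  linarith

end Pool.Agent.H37.SFQ
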