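import Pool.Agent.H37.SFQ.CharSum

/-!
The variance of the number of primes of a short window in the residue classes `r mod q`,
`q ≤ Q`.
-/

set_option autoImplicit false

open Finset ComplexConjugate

namespace Pool.Agent.H37.SFQ

/-- the primes of the window `(M, M+N]` -/
noncomputable def wp (M N : ℕ) : Finset ℕ := (Ioc M (M + N)).filter Nat.Prime

lemma mem_wp {M N p : ℕ} : p ∈ wp M N ↔ (M < p ∧ p ≤ M + N) ∧ p.Prime := by
  rw [wp, Finset.mem_filter, Finset.mem_Ioc]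

/-- `θ(W, χ)` -/
noncomputable def thW (M N : ℕ) (t : AllChar) : ℂ := ∑ p ∈ wp M N, (Real.log p : ℂ) * ev t p

/-- `θ(W; q, r)` -/
noncomputable def fW (M N q r : ℕ) : ℝ := ∑ p ∈ (wp M N).filter (fun p => p % q = r), Real.log p

/-- the primitive character inducing `χ` -/
noncomputable def prim {q : ℕ} (χ : DirichletCharacter ℂ q) : AllChar :=
  ⟨χ.conductor, χ.primitiveCharacter⟩

lemma prim_injective (q : ℕ) : Function.Injective (prim (q := q)) := by
  classical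
  have : Function.LeftInverse
      (fun t : AllChar => if h : t.1 ∣ q then DirichletCharacter.changeLevel h t.2 else 1)
      (prim (q := q)) := by
    intro χ
    have h : (prim χ).1 ∣ q := χ.conductor_dvd_level
    change (if h : (prim χ).1 ∣ q then DirichletCharacter.changeLevel h (prim χ).2 else 1) = χ
    rw [dif_pos h]
    exact χ.changeLevel_primitiveCharacter
  exact this.injective

lemma ev_prim {q : ℕ} (χ : DirichletCharacter ℂ q) {n : ℕ} (h : n.Coprime q) :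
    ev (prim χ) n = χ n := by
  have := χ.primitiveCharacter_apply_of_isCoprime (a := (n : ℤ)) (Nat.isCoprime_iff_coprime.2 h)
  rw [Int.cast_natCast, Int.cast_natCast] at this
  exact this

lemma prim_mem {q : ℕ} (χ : DirichletCharacter ℂ q) :
    (prim χ).1 ∣ q ∧ (prim χ).2 ∈ prims (prim χ).1 := by
  refine ⟨χ.conductor_dvd_level, ?_⟩
  rw [mem_prims]
  exact χ.primitiveCharacter_isPrimitive

/-- Bessel inequality for the characters of `(ℤ/q)ˣ`. -/
lemma bessel {q : ℕ} [NeZero q] (T : Finset (DirichletCharacter ℂ q))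
    (b : DirichletCharacter ℂ q → ℂ) :
    ∑ r : ZMod q, ‖∑ χ ∈ T, b χ * conj (χ r)‖ ^ 2 ≤ q.totient * ∑ χ ∈ T, ‖b χ‖ ^ 2 := by
  classical
  have h1 := schur T (Finset.univ : Finset (ZMod q)) (fun _ => 1)
    (fun χ r => conj (χ r)) (Δ := (q.totient : ℝ)) ?_ b
  · simpa using h1
  · intro χ hχ
    have h2 : ∀ χ' : DirichletCharacter ℂ q,
        ‖∑ r : ZMod q, (((1 : ℝ) : ℂ)) * conj (χ r) * conj (conj (χ' r))‖ =
        if χ = χ' then (q.totient : ℝ) else 0 := by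
      intro χ'
      have h3 : ∑ r : ZMod q, (((1 : ℝ) : ℂ)) * conj (χ r) * conj (conj (χ' r)) =
          ∑ r : ZMod q, (χ⁻¹ * χ') r := by
        refine Finset.sum_congr rfl fun r _ => ?_
        rw [Complex.ofReal_one, one_mul, Complex.conj_conj, conj_char, MulChar.mul_apply]
      rw [h3]
      by_cases h4 : χ = χ'
      · subst h4
        rw [if_pos rfl, inv_mul_cancel, MulChar.sum_one_eq_card_units,
          ZMod.card_units_eq_totient]
        simp
      · rw [if_neg h4, MulChar.sum_eq_zero_of_ne_one, norm_zero]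
        intro h5
        exact h4 (inv_mul_eq_one.1 h5)
    rw [Finset.sum_congr rfl fun χ' _ => h2 χ', Finset.sum_ite_eq T χ, if_pos hχ]

/-- the Fourier expansion of `θ(W; q, r)` -/
lemma fW_fourier {M N q r : ℕ} [NeZero q] (hr : r < q) (hc : r.Coprime q) :
    ((q.totient * fW M N q r : ℝ) : ℂ) =
      ∑ χ : DirichletCharacter ℂ q, (∑ p ∈ wp M N, (Real.log p : ℂ) * χ p) * conj (χ r) := by
  classical
  have h1 : ∀ χ : DirichletCharacter ℂ q,
      (∑ p ∈ wp M N, (Real.log p : ℂ) * χ p) * conj (χ r) =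
      ∑ p ∈ wp M N, (Real.log p : ℂ) * (χ p * conj (χ r)) := by
    intro χ
    rw [Finset.sum_mul]
    exact Finset.sum_congr rfl fun p _ => by ring
  simp_rw [h1]
  rw [Finset.sum_comm]
  simp_rw [← Finset.mul_sum, sum_char_mul_conj]
  have hu : IsUnit (r : ZMod q) := (ZMod.isUnit_iff_coprime r q).2 hc
  unfold fW
  rw [Finset.sum_filter, Complex.ofReal_mul, Complex.ofReal_natCast, Complex.ofReal_sum,
    Finset.mul_sum]
  refine Finset.sum_congr rfl fun p _ => ?_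
  have h2 : ((p : ZMod q) = (r : ZMod q) ∧ IsUnit (r : ZMod q)) ↔ p % q = r := by
    rw [ZMod.natCast_eq_natCast_iff]
    constructor
    · rintro ⟨h3, _⟩
      have h4 : p % q = r % q := h3
      rw [h4, Nat.mod_eq_of_lt hr]
    · intro h3
      refine ⟨?_, hu⟩
      change p % q = r % q
      rw [h3, Nat.mod_eq_of_lt hr]
  by_cases h3 : p % q = r
  · rw [if_pos h3, if_pos (h2.2 h3)]
    ring
  · rw [if_neg h3, if_neg (fun hc' => h3 (h2.1 hc')), Complex.ofReal_zero]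
    ring

/-- irregular residue class with respect to the window -/
def Irr (M N q r : ℕ) : Prop :=
  ¬ ((N : ℝ) / 4 ≤ q.totient * fW M N q r ∧ q.totient * fW M N q r ≤ 2 * N)

/-- For one modulus: number of irregular classes. -/
lemma irr_count {M N q D : ℕ} (hq : 0 < q) (hqM : q ≤ M) (hD : 1 ≤ D) (hN : 0 < N)
    (h0 : |∑ p ∈ wp M N, Real.log p - N| ≤ N / 8)
    (h1 : ∑ t ∈ (primSet D).filter (fun t => t.1 ≠ 1), ‖thW M N t‖ ≤ N / 8) (S : Finset ℕ)
    (hS : ∀ r ∈ S, r < q ∧ r.Coprime q ∧ Irr M N q r) :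
    (S.card : ℝ) ≤ 4 / (N : ℝ) ^ 2 * (q.totient *
      ∑ χ ∈ (Finset.univ : Finset (DirichletCharacter ℂ q)).filter (fun χ => D < χ.conductor),
        ‖thW M N (prim χ)‖ ^ 2) := by
  classical
  have : NeZero q := ⟨by omega⟩
  have hNpos : (0 : ℝ) < N := by exact_mod_cast hN
  set T : Finset (DirichletCharacter ℂ q) :=
    (Finset.univ : Finset (DirichletCharacter ℂ q)).filter (fun χ => D < χ.conductor) with hT
  set b : DirichletCharacter ℂ q → ℂ := fun χ => ∑ p ∈ wp M N, (Real.log p : ℂ) * χ p with hb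
  have hcop : ∀ p ∈ wp M N, p.Coprime q := by
    intro p hp
    rw [mem_wp] at hp
    rw [Nat.Prime.coprime_iff_not_dvd hp.2]
    intro hdvd
    have := Nat.le_of_dvd hq hdvd
    omega
  have hbth : ∀ χ, b χ = thW M N (prim χ) := by
    intro χ
    rw [hb, thW]
    refine Finset.sum_congr rfl fun p hp => ?_
    rw [ev_prim χ (hcop p hp)]
  -- every irregular class has a large error term
  have hlow : ∀ r ∈ S, (N : ℝ) / 2 ≤ ‖∑ χ ∈ T, b χ * conj (χ (r : ZMod q))‖ := by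
    intro r hr
    obtain ⟨hrq, hrc, hirr⟩ := hS r hr
    have hF := fW_fourier (M := M) (N := N) hrq hrc
    rw [← Finset.sum_filter_add_sum_filter_not Finset.univ (fun χ => D < χ.conductor)] at hF
    have h1c : (1 : DirichletCharacter ℂ q) ∈
        (Finset.univ : Finset (DirichletCharacter ℂ q)).filter (fun χ => ¬ D < χ.conductor) := by
      rw [Finset.mem_filter]
      refine ⟨Finset.mem_univ _, ?_⟩
      rw [DirichletCharacter.conductor_one]
      omega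
    rw [← Finset.add_sum_erase _ _ h1c] at hF
    have hru : IsUnit (r : ZMod q) := (ZMod.isUnit_iff_coprime r q).2 hrc
    have hmain : (∑ p ∈ wp M N, (Real.log p : ℂ) * (1 : DirichletCharacter ℂ q) p) *
        conj ((1 : DirichletCharacter ℂ q) (r : ZMod q)) = ((∑ p ∈ wp M N, Real.log p : ℝ) : ℂ) := by
      rw [MulChar.one_apply hru, map_one, mul_one]
      push_cast
      refine Finset.sum_congr rfl fun p hp => ?_
      rw [MulChar.one_apply ((ZMod.isUnit_iff_coprime p q).2 (hcop p hp)), mul_one]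
    rw [hmain] at hF
    set Z := ∑ χ ∈ T, b χ * conj (χ (r : ZMod q)) with hZ
    set Y := ∑ χ ∈ ((Finset.univ : Finset (DirichletCharacter ℂ q)).filter
      (fun χ => ¬ D < χ.conductor)).erase 1, b χ * conj (χ (r : ZMod q)) with hY
    have hF' : ((q.totient * fW M N q r : ℝ) : ℂ) = Z +
        (((∑ p ∈ wp M N, Real.log p : ℝ) : ℂ) + Y) := hF
    have hYle : ‖Y‖ ≤ N / 8 := by
      refine le_trans ?_ h1
      refine (norm_sum_le _ _).trans ?_
      calc ∑ χ ∈ ((Finset.univ : Finset (DirichletCharacter ℂ q)).filter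
            (fun χ => ¬ D < χ.conductor)).erase 1, ‖b χ * conj (χ (r : ZMod q))‖
          ≤ ∑ χ ∈ ((Finset.univ : Finset (DirichletCharacter ℂ q)).filter
            (fun χ => ¬ D < χ.conductor)).erase 1, ‖thW M N (prim χ)‖ := by
            refine Finset.sum_le_sum fun χ _ => ?_
            rw [norm_mul, RCLike.norm_conj, hbth]
            have h2 := χ.norm_le_one (r : ZMod q)
            have h3 := norm_nonneg (thW M N (prim χ))
            nlinarith
        _ = ∑ t ∈ (((Finset.univ : Finset (DirichletCharacter ℂ q)).filter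
            (fun χ => ¬ D < χ.conductor)).erase 1).image prim, ‖thW M N t‖ := by
            rw [Finset.sum_image (fun a _ b _ h => prim_injective q h)]
        _ ≤ _ := by
            refine Finset.sum_le_sum_of_subset_of_nonneg ?_ fun _ _ _ => norm_nonneg _
            intro t ht
            obtain ⟨χ, hχ, rfl⟩ := Finset.mem_image.1 ht
            rw [Finset.mem_erase, Finset.mem_filter, not_lt] at hχ
            rw [Finset.mem_filter, primSet, Finset.mem_sigma, Finset.mem_Icc]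
            have h2 := prim_mem χ
            refine ⟨⟨⟨Nat.pos_of_dvd_of_pos h2.1 hq, hχ.2.2⟩, h2.2⟩, ?_⟩
            intro h3
            exact hχ.1 (DirichletCharacter.eq_one_iff_conductor_eq_one.2 h3)
    -- conclusion
    have h2 : ((q.totient * fW M N q r - ∑ p ∈ wp M N, Real.log p : ℝ) : ℂ) = Z + Y := by
      rw [Complex.ofReal_sub, hF']
      ring
    have h3 : |q.totient * fW M N q r - ∑ p ∈ wp M N, Real.log p| ≤ ‖Z‖ + ‖Y‖ := by
      rw [← Real.norm_eq_abs, ← Complex.norm_real, h2]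
      exact norm_add_le _ _
    by_contra hlt
    push Not at hlt
    apply hirr
    have h4 := abs_le.1 h3
    have h5 := abs_le.1 h0
    constructor
    · linarith [h4.1, h5.1]
    · linarith [h4.2, h5.2]
  have h2 : (S.card : ℝ) * ((N : ℝ) / 2) ^ 2 ≤ q.totient * ∑ χ ∈ T, ‖thW M N (prim χ)‖ ^ 2 := by
    have h3 := bessel T b
    have h4 : ∑ χ ∈ T, ‖b χ‖ ^ 2 = ∑ χ ∈ T, ‖thW M N (prim χ)‖ ^ 2 :=
      Finset.sum_congr rfl fun χ _ => by rw [hbth]
    rw [h4] at h3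
    refine le_trans ?_ h3
    have h5 : (S.card : ℝ) * ((N : ℝ) / 2) ^ 2 ≤
        ∑ r ∈ S, ‖∑ χ ∈ T, b χ * conj (χ (r : ZMod q))‖ ^ 2 := by
      rw [← nsmul_eq_mul, ← Finset.sum_const]
      refine Finset.sum_le_sum fun r hr => ?_
      exact pow_le_pow_left₀ (by positivity) (hlow r hr) 2
    refine h5.trans ?_
    have hinj : Set.InjOn (fun r : ℕ => (r : ZMod q)) (S : Set ℕ) := by
      intro r hr r' hr' h
      have h6 : (r : ZMod q) = (r' : ZMod q) := h
      rw [ZMod.natCast_eq_natCast_iff] at h6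
      have h7 : r % q = r' % q := h6
      rwa [Nat.mod_eq_of_lt (hS r hr).1, Nat.mod_eq_of_lt (hS r' hr').1] at h7
    rw [← Finset.sum_image (f := fun r : ZMod q => ‖∑ χ ∈ T, b χ * conj (χ r)‖ ^ 2) hinj]
    exact Finset.sum_le_sum_of_subset_of_nonneg (Finset.subset_univ _) fun _ _ _ => by positivity
  have h3 : (S.card : ℝ) = 4 / (N : ℝ) ^ 2 * ((S.card : ℝ) * ((N : ℝ) / 2) ^ 2) := by
    field_simp
    norm_num
  rw [h3]
  exact mul_le_mul_of_nonneg_left h2 (by positivity)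

lemma swap_dvd (T : ℕ → ℝ) (D Q : ℕ) :
    ∑ q ∈ Icc 1 Q, ((q : ℝ) * ∑ d ∈ (Ioc D Q).filter (fun d => d ∣ q), T d) =
      ∑ d ∈ Ioc D Q, (∑ q ∈ (Icc 1 Q).filter (fun q => d ∣ q), (q : ℝ)) * T d := by
  simp_rw [Finset.sum_filter, Finset.mul_sum, Finset.sum_mul]
  rw [Finset.sum_comm]
  refine Finset.sum_congr rfl fun d _ => Finset.sum_congr rfl fun q _ => ?_
  split_ifs <;> simp

/-- Summation over the moduli. -/
lemma irr_total {M N Q D : ℕ} (hQM : Q ≤ M) (hD : 1 ≤ D) (hN : 0 < N)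
    (h0 : |∑ p ∈ wp M N, Real.log p - N| ≤ N / 8)
    (h1 : ∑ t ∈ (primSet D).filter (fun t => t.1 ≠ 1), ‖thW M N t‖ ≤ N / 8)
    (S : Finset (ℕ × ℕ))
    (hS : ∀ x ∈ S, (1 ≤ x.2 ∧ x.2 ≤ Q) ∧ x.1 < x.2 ∧ x.1.Coprime x.2 ∧ Irr M N x.2 x.1) :
    (S.card : ℝ) ≤ 4 * (Q : ℝ) ^ 2 / (N : ℝ) ^ 2 *
      ∑ d ∈ Ioc D Q, (1 / (d : ℝ)) * ∑ ψ ∈ prims d, ‖thW M N ⟨d, ψ⟩‖ ^ 2 := by
  classical
  have h2 : (S.card : ℝ) = ∑ q ∈ Icc 1 Q, ((S.filter (fun x => x.2 = q)).card : ℝ) := by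
    have := Finset.card_eq_sum_card_fiberwise (s := S) (t := Icc 1 Q) (f := fun x => x.2)
      (fun x hx => by
        have := hS x hx
        exact Finset.mem_coe.2 (Finset.mem_Icc.2 this.1))
    rw [this]
    push_cast
    rfl
  have h3 : ∀ q ∈ Icc 1 Q, ((S.filter (fun x => x.2 = q)).card : ℝ) ≤
      4 / (N : ℝ) ^ 2 * (q * ∑ d ∈ (Ioc D Q).filter (fun d => d ∣ q),
        ∑ ψ ∈ prims d, ‖thW M N ⟨d, ψ⟩‖ ^ 2) := by
    intro q hq
    rw [Finset.mem_Icc] at hq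
    have h4 : ((S.filter (fun x => x.2 = q)).image (fun x => x.1)).card =
        (S.filter (fun x => x.2 = q)).card := by
      refine Finset.card_image_of_injOn ?_
      intro x hx y hy hxy
      rw [Finset.mem_coe, Finset.mem_filter] at hx hy
      exact Prod.ext hxy (hx.2.trans hy.2.symm)
    rw [← h4]
    refine (irr_count (q := q) (by omega) (by omega) hD hN h0 h1 _ ?_).trans ?_
    · intro r hr
      obtain ⟨x, hx, rfl⟩ := Finset.mem_image.1 hr
      rw [Finset.mem_filter] at hx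
      have := hS x hx.1
      rw [hx.2] at this
      exact this.2
    · refine mul_le_mul_of_nonneg_left ?_ (by positivity)
      refine mul_le_mul (by exact_mod_cast Nat.totient_le q) ?_
        (Finset.sum_nonneg fun _ _ => by positivity) (by positivity)
      rw [← Finset.sum_image (f := fun t : AllChar => ‖thW M N t‖ ^ 2)
        (fun a _ b _ h => prim_injective q h)]
      rw [← Finset.sum_sigma ((Ioc D Q).filter (fun d => d ∣ q)) (fun d => prims d)
        (fun t : AllChar => ‖thW M N t‖ ^ 2)]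
      refine Finset.sum_le_sum_of_subset_of_nonneg ?_ fun _ _ _ => by positivity
      intro t ht
      obtain ⟨χ, hχ, rfl⟩ := Finset.mem_image.1 ht
      rw [Finset.mem_filter] at hχ
      have h5 := prim_mem χ
      rw [Finset.mem_sigma, Finset.mem_filter, Finset.mem_Ioc]
      exact ⟨⟨⟨hχ.2, (Nat.le_of_dvd (by omega) h5.1).trans hq.2⟩, h5.1⟩, h5.2⟩
  rw [h2]
  refine (Finset.sum_le_sum h3).trans ?_
  rw [← Finset.mul_sum]
  have h4 : ∑ q ∈ Icc 1 Q, ((q : ℝ) * ∑ d ∈ (Ioc D Q).filter (fun d => d ∣ q),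
        ∑ ψ ∈ prims d, ‖thW M N ⟨d, ψ⟩‖ ^ 2) ≤
      (Q : ℝ) ^ 2 * ∑ d ∈ Ioc D Q, (1 / (d : ℝ)) * ∑ ψ ∈ prims d, ‖thW M N ⟨d, ψ⟩‖ ^ 2 := by
    have h5 : ∑ q ∈ Icc 1 Q, ((q : ℝ) * ∑ d ∈ (Ioc D Q).filter (fun d => d ∣ q),
        ∑ ψ ∈ prims d, ‖thW M N ⟨d, ψ⟩‖ ^ 2) =
        ∑ d ∈ Ioc D Q, (∑ q ∈ (Icc 1 Q).filter (fun q => d ∣ q), (q : ℝ)) *
          ∑ ψ ∈ prims d, ‖thW M N ⟨d, ψ⟩‖ ^ 2 := by
      exact swap_dvd (fun d => ∑ ψ ∈ prims d, ‖thW M N ⟨d, ψ⟩‖ ^ 2) D Q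
    rw [h5, Finset.mul_sum]
    refine Finset.sum_le_sum fun d hd => ?_
    rw [Finset.mem_Ioc] at hd
    have hd0 : (0 : ℝ) < d := by
      have : 0 < d := by omega
      exact_mod_cast this
    have h6 : ∑ q ∈ (Icc 1 Q).filter (fun q => d ∣ q), (q : ℝ) ≤ (Q : ℝ) ^ 2 * (1 / d) := by
      calc ∑ q ∈ (Icc 1 Q).filter (fun q => d ∣ q), (q : ℝ)
          ≤ ∑ q ∈ (Icc 1 Q).filter (fun q => d ∣ q), (Q : ℝ) := by
            refine Finset.sum_le_sum fun q hq => ?_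
            rw [Finset.mem_filter, Finset.mem_Icc] at hq
            exact_mod_cast hq.1.2
        _ = ((Q / d : ℕ) : ℝ) * Q := by
            rw [Finset.sum_const, nsmul_eq_mul]
            congr 2
            have h7 : Icc 1 Q = Ioc 0 Q := by
              ext n
              rw [Finset.mem_Icc, Finset.mem_Ioc]
              omega
            rw [h7]
            exact Nat.Ioc_filter_dvd_card_eq_div Q d
        _ ≤ ((Q : ℝ) / d) * Q := mul_le_mul_of_nonneg_right Nat.cast_div_le (by positivity)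
        _ = (Q : ℝ) ^ 2 * (1 / d) := by ring
    have h7 : 0 ≤ ∑ ψ ∈ prims d, ‖thW M N ⟨d, ψ⟩‖ ^ 2 := Finset.sum_nonneg fun _ _ => by positivity
    calc _ ≤ (Q : ℝ) ^ 2 * (1 / d) * ∑ ψ ∈ prims d, ‖thW M N ⟨d, ψ⟩‖ ^ 2 :=
          mul_le_mul_of_nonneg_right h6 h7
      _ = _ := by ring
  calc 4 / (N : ℝ) ^ 2 * ∑ q ∈ Icc 1 Q, ((q : ℝ) * ∑ d ∈ (Ioc D Q).filter (fun d => d ∣ q),
        ∑ ψ ∈ prims d, ‖thW M N ⟨d, ψ⟩‖ ^ 2)
      ≤ 4 / (N : ℝ) ^ 2 * ((Q : ℝ) ^ 2 * ∑ d ∈ Ioc D Q, (1 / (d : ℝ)) *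
        ∑ ψ ∈ prims d, ‖thW M N ⟨d, ψ⟩‖ ^ 2) := mul_le_mul_of_nonneg_left h4 (by positivity)
    _ = _ := by ring

/-- partial summation -/
lemma abel_inv (T : ℕ → ℝ) (a b : ℕ) (hab : a < b) :
    ∑ d ∈ Ioc a b, (1 / (d : ℝ)) * T d =
      (∑ d ∈ Ioc a b, T d) / b + ∑ k ∈ Ico (a + 1) b, (∑ d ∈ Ioc a k, T d) / (k * (k + 1)) := by
  induction b, hab using Nat.le_induction with
  | base =>
    simp
    ring
  | succ b hb ih =>
    have hb0 : (b : ℝ) ≠ 0 := by
      have : b ≠ 0 := by omega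
      exact_mod_cast this
    have hb1 : (b : ℝ) + 1 ≠ 0 := by positivity
    have h1 : Ioc a (b + 1) = insert (b + 1) (Ioc a b) := by
      ext n
      rw [Finset.mem_insert, Finset.mem_Ioc, Finset.mem_Ioc]
      omega
    have h2 : (b + 1) ∉ Ioc a b := by
      rw [Finset.mem_Ioc]
      omega
    have h3 : Ico (a + 1) (b + 1) = insert b (Ico (a + 1) b) := by
      ext n
      rw [Finset.mem_insert, Finset.mem_Ico, Finset.mem_Ico]
      omega
    have h4 : b ∉ Ico (a + 1) b := by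
      rw [Finset.mem_Ico]
      omega
    rw [h1, Finset.sum_insert h2, Finset.sum_insert h2, ih, h3, Finset.sum_insert h4]
    push_cast
    field_simp
    ring

/-- the range of large conductors -/
lemma large_cond {M N Q D1 : ℕ} (hD1 : 1 ≤ D1) (hQ : D1 < Q) :
    ∑ d ∈ Ioc D1 Q, (1 / (d : ℝ)) * ∑ ψ ∈ prims d, ‖thW M N ⟨d, ψ⟩‖ ^ 2 ≤
      5 * (2 * (N : ℝ) / D1 + 2 * Q) * ∑ p ∈ wp M N, Real.log p ^ 2 := by
  classical
  set B : ℝ := ∑ p ∈ wp M N, Real.log p ^ 2 with hB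
  have hB0 : 0 ≤ B := Finset.sum_nonneg fun _ _ => by positivity
  set T : ℕ → ℝ := fun d => ∑ ψ ∈ prims d, ‖thW M N ⟨d, ψ⟩‖ ^ 2 with hT
  have hT0 : ∀ d, 0 ≤ T d := fun d => Finset.sum_nonneg fun _ _ => by positivity
  have hS : ∀ k : ℕ, 1 ≤ k → ∑ d ∈ Ioc D1 k, T d ≤ 5 * ((N : ℝ) + (k : ℝ) ^ 2) * B := by
    intro k hk
    have h1 := mult_large_sieve hk M N (fun n => if n.Prime then (Real.log n : ℂ) else 0)
    have h2 : ∑ n ∈ Ioc M (M + N), ‖(if n.Prime then (Real.log n : ℂ) else 0)‖ ^ 2 = B := by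
      rw [hB, wp, Finset.sum_filter]
      refine Finset.sum_congr rfl fun n _ => ?_
      split_ifs
      · rw [Complex.norm_real, Real.norm_eq_abs, sq_abs]
      · simp
    rw [h2] at h1
    refine le_trans ?_ h1
    have h3 : ∀ d, ∑ χ ∈ prims d, ‖∑ n ∈ Ioc M (M + N),
        (if n.Prime then (Real.log n : ℂ) else 0) * χ (n : ZMod d)‖ ^ 2 = T d := by
      intro d
      rw [hT]
      refine Finset.sum_congr rfl fun χ _ => ?_
      congr 2
      rw [thW, wp, Finset.sum_filter]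
      refine Finset.sum_congr rfl fun n _ => ?_
      split_ifs
      · rfl
      · simp
    simp_rw [h3]
    refine Finset.sum_le_sum_of_subset_of_nonneg ?_ fun d _ _ => hT0 d
    intro d hd
    rw [Finset.mem_Ioc] at hd
    rw [Finset.mem_Icc]
    omega
  have h1 := abel_inv T D1 Q hQ
  have hD1' : (0 : ℝ) < D1 := by exact_mod_cast hD1
  have hQ' : (0 : ℝ) < Q := by
    have : 0 < Q := by omega
    exact_mod_cast this
  have hDQ : (D1 : ℝ) ≤ Q := by exact_mod_cast hQ.le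
  have h2 : (∑ d ∈ Ioc D1 Q, T d) / Q ≤ 5 * ((N : ℝ) / D1 + Q) * B := by
    rw [div_le_iff₀ hQ']
    refine (hS Q (by omega)).trans ?_
    have h3 : (N : ℝ) ≤ N / D1 * Q := by
      rw [div_mul_eq_mul_div, le_div_iff₀ hD1']
      exact mul_le_mul_of_nonneg_left hDQ (by positivity)
    have h4 : ((N : ℝ) + (Q : ℝ) ^ 2) ≤ ((N : ℝ) / D1 + Q) * Q := by nlinarith
    have h5 := mul_le_mul_of_nonneg_right h4 hB0
    nlinarith
  have h3 : ∑ k ∈ Ico (D1 + 1) Q, (∑ d ∈ Ioc D1 k, T d) / (k * (k + 1)) ≤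
      5 * ((N : ℝ) / D1 + Q) * B := by
    have h4 : ∀ k ∈ Ico (D1 + 1) Q, (∑ d ∈ Ioc D1 k, T d) / ((k : ℝ) * (k + 1)) ≤
        5 * B * ((N : ℝ) * (1 / (k : ℝ) - 1 / ((k : ℝ) + 1)) + 1) := by
      intro k hk
      rw [Finset.mem_Ico] at hk
      have hk0 : (0 : ℝ) < k := by
        have : 0 < k := by omega
        exact_mod_cast this
      rw [div_le_iff₀ (by positivity)]
      refine (hS k (by omega)).trans ?_
      have h5 : 5 * B * ((N : ℝ) * (1 / (k : ℝ) - 1 / ((k : ℝ) + 1)) + 1) * ((k : ℝ) * (k + 1)) =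
          5 * B * (N + k * (k + 1)) := by
        field_simp
        ring
      rw [h5]
      have h6 : (k : ℝ) ^ 2 ≤ k * (k + 1) := by nlinarith
      have h7 := mul_le_mul_of_nonneg_left h6 hB0
      nlinarith
    refine (Finset.sum_le_sum h4).trans ?_
    rw [← Finset.mul_sum, Finset.sum_add_distrib, ← Finset.mul_sum]
    have h5 : ∀ b : ℕ, D1 + 1 ≤ b → ∑ k ∈ Ico (D1 + 1) b, (1 / (k : ℝ) - 1 / ((k : ℝ) + 1)) =
        1 / ((D1 : ℝ) + 1) - 1 / b := by
      intro b hb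
      induction b, hb using Nat.le_induction with
      | base => simp
      | succ b hb ih =>
        rw [Finset.sum_Ico_succ_top hb, ih]
        push_cast
        ring
    rw [h5 Q (by omega), Finset.sum_const, Nat.card_Ico]
    have h6 : (1 : ℝ) / ((D1 : ℝ) + 1) - 1 / Q ≤ 1 / D1 := by
      have h7 : (1 : ℝ) / ((D1 : ℝ) + 1) ≤ 1 / D1 :=
        one_div_le_one_div_of_le hD1' (by linarith)
      have h8 : (0 : ℝ) ≤ 1 / Q := by positivity
      linarith
    have h7 : ((Q - (D1 + 1) : ℕ) : ℝ) ≤ Q := by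
      exact_mod_cast Nat.sub_le _ _
    have h8 : (N : ℝ) * (1 / ((D1 : ℝ) + 1) - 1 / Q) + (Q - (D1 + 1) : ℕ) • (1 : ℝ) ≤
        (N : ℝ) / D1 + Q := by
      rw [nsmul_eq_mul, mul_one]
      have := mul_le_mul_of_nonneg_left h6 (Nat.cast_nonneg (α := ℝ) N)
      rw [mul_one_div] at this
      linarith
    have h9 := mul_le_mul_of_nonneg_left h8 (show 0 ≤ 5 * B by positivity)
    linarith
  rw [h1]
  calc _ ≤ 5 * ((N : ℝ) / D1 + Q) * B + 5 * ((N : ℝ) / D1 + Q) * B := add_le_add h2 h3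
    _ = _ := by ring

/-- the range of medium conductors -/
lemma medium_cond {M N D D1 R : ℕ} (hD : 1 ≤ D) (hR : 1 ≤ R) (hRM : R ≤ M) :
    ∑ d ∈ Ioc D D1, (1 / (d : ℝ)) * ∑ ψ ∈ prims d, ‖thW M N ⟨d, ψ⟩‖ ^ 2 ≤
      1 / D * (((N : ℝ) / selG R + (R : ℝ) ^ 4 + (D1 : ℝ) ^ 2 * ((R : ℝ) ^ 4 * (D1 : ℝ) ^ 2)) *
        ∑ p ∈ wp M N, Real.log p ^ 2) := by
  classical
  have hD' : (0 : ℝ) < D := by exact_mod_cast hD
  have h1 := primes_large_sieve (D := D1) (N := N) hR hRM (fun n => (Real.log n : ℂ))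
  have h2 : ∑ n ∈ (Ioc M (M + N)).filter Nat.Prime, ‖(Real.log n : ℂ)‖ ^ 2 =
      ∑ p ∈ wp M N, Real.log p ^ 2 := by
    refine Finset.sum_congr rfl fun n _ => ?_
    rw [Complex.norm_real, Real.norm_eq_abs, sq_abs]
  rw [h2] at h1
  have h3 : ∑ t ∈ primSet D1, ‖∑ n ∈ (Ioc M (M + N)).filter Nat.Prime, (Real.log n : ℂ) * ev t n‖ ^ 2 =
      ∑ d ∈ Icc 1 D1, ∑ ψ ∈ prims d, ‖thW M N ⟨d, ψ⟩‖ ^ 2 := by
    rw [primSet, Finset.sum_sigma]
    rfl
  rw [h3] at h1
  refine le_trans ?_ (mul_le_mul_of_nonneg_left h1 (by positivity))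
  rw [Finset.mul_sum]
  calc ∑ d ∈ Ioc D D1, (1 / (d : ℝ)) * ∑ ψ ∈ prims d, ‖thW M N ⟨d, ψ⟩‖ ^ 2
      ≤ ∑ d ∈ Ioc D D1, (1 / (D : ℝ)) * ∑ ψ ∈ prims d, ‖thW M N ⟨d, ψ⟩‖ ^ 2 := by
        refine Finset.sum_le_sum fun d hd => ?_
        rw [Finset.mem_Ioc] at hd
        refine mul_le_mul_of_nonneg_right ?_ (Finset.sum_nonneg fun _ _ => by positivity)
        refine one_div_le_one_div_of_le hD' ?_
        exact_mod_cast hd.1.le
    _ ≤ _ := by
        refine Finset.sum_le_sum_of_subset_of_nonneg ?_ fun d _ _ =>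
          mul_nonneg (by positivity) (Finset.sum_nonneg fun _ _ => by positivity)
        intro d hd
        rw [Finset.mem_Ioc] at hd
        rw [Finset.mem_Icc]
        omega

/-- The variance bound. -/
theorem variance {M N Q D D1 R : ℕ} (hQM : Q ≤ M) (hD : 1 ≤ D) (hN : 0 < N) (hDD1 : D ≤ D1)
    (hD1Q : D1 < Q) (hR : 1 ≤ R) (hRM : R ≤ M)
    (h0 : |∑ p ∈ wp M N, Real.log p - N| ≤ N / 8)
    (h1 : ∑ t ∈ (primSet D).filter (fun t => t.1 ≠ 1), ‖thW M N t‖ ≤ N / 8)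
    (S : Finset (ℕ × ℕ))
    (hS : ∀ x ∈ S, (1 ≤ x.2 ∧ x.2 ≤ Q) ∧ x.1 < x.2 ∧ x.1.Coprime x.2 ∧ Irr M N x.2 x.1) :
    (S.card : ℝ) ≤ 4 * (Q : ℝ) ^ 2 / (N : ℝ) ^ 2 *
      ((1 / D * ((N : ℝ) / selG R + (R : ℝ) ^ 4 + (D1 : ℝ) ^ 2 * ((R : ℝ) ^ 4 * (D1 : ℝ) ^ 2)) +
        5 * (2 * (N : ℝ) / D1 + 2 * Q)) * ∑ p ∈ wp M N, Real.log p ^ 2) := by
  refine (irr_total hQM hD hN h0 h1 S hS).trans ?_
  refine mul_le_mul_of_nonneg_left ?_ (by positivity)
  have h2 : Ioc D Q = Ioc D D1 ∪ Ioc D1 Q := (Finset.Ioc_union_Ioc_eq_Ioc hDD1 hD1Q.le).symm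
  have h3 : Disjoint (Ioc D D1) (Ioc D1 Q) := by
    rw [Finset.disjoint_left]
    intro n h4 h5
    rw [Finset.mem_Ioc] at h4 h5
    omega
  rw [h2, Finset.sum_union h3]
  have h4 := medium_cond (M := M) (N := N) (D1 := D1) hD hR hRM
  have h5 := large_cond (M := M) (N := N) (show 1 ≤ D1 by omega) hD1Q
  calc _ ≤ _ := add_le_add h4 h5
    _ = _ := by ring

end Pool.Agent.H37.SFQ
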